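import Mathlib

/-!
# Kameko's squaring operation: definitions and basic properties
-/

open MvPolynomial

namespace Q181.Kameko

noncomputable section

/-- The polynomial algebra `P_d = F₂[x_1, …, x_d]`. -/
abbrev P (d : ℕ) : Type := MvPolynomial (Fin d) (ZMod 2)

/-- The substitution `f ↦ f(w(x_1), …, w(x_d))`, where `w(x_j) = ∑ i, w_ij x_i`. -/
def act {d : ℕ} (w : Matrix (Fin d) (Fin d) (ZMod 2)) : P d →ₐ[ZMod 2] P d :=
  aeval (fun j => ∑ i, C (w i j) * X i)

/-- The total Steenrod square `P_d → P_d[T]`, the algebra homomorphism with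
`x_i ↦ x_i + x_i ^ 2 T`. -/
def totalSq (d : ℕ) : P d →ₐ[ZMod 2] Polynomial (P d) :=
  aeval (fun i => Polynomial.C (X i) + Polynomial.C (X i ^ 2) * Polynomial.X)

/-- The Steenrod square `Sq^k` on `P_d`: the coefficient of `T ^ k` of the total square. -/
def Sq {d : ℕ} (k : ℕ) : P d →ₗ[ZMod 2] P d :=
  ((Polynomial.lcoeff (P d) k).restrictScalars (ZMod 2)).comp (totalSq d).toLinearMap

/-- `H_n`: the degree `n` part of the graded dual of `P_d`, that is the linear functionals on `P_d`
which vanish on all monomials of degree different from `n`. -/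
def H (d n : ℕ) : Submodule (ZMod 2) (P d →ₗ[ZMod 2] ZMod 2) where
  carrier := {p | ∀ s : Fin d →₀ ℕ, s.degree ≠ n → p (monomial s 1) = 0}
  zero_mem' := fun s _ => rfl
  add_mem' := fun {a b} ha hb s hs => by simp [ha s hs, hb s hs]
  smul_mem' := fun c a ha s hs => by simp [ha s hs]

/-- `PH_n`: the elements of `H_n` annihilated by all dual Steenrod squares `Sq^k_*`, `k > 0`; here
`Sq^k_* p = p ∘ Sq^k`. -/
def PH (d n : ℕ) : Submodule (ZMod 2) (P d →ₗ[ZMod 2] ZMod 2) where
  carrier := {p | p ∈ H d n ∧ ∀ k > 0, p.comp (Sq k) = 0}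
  zero_mem' := ⟨(H d n).zero_mem, fun k _ => by simp⟩
  add_mem' := fun {a b} ha hb => ⟨(H d n).add_mem ha.1 hb.1, fun k hk => by
    rw [LinearMap.add_comp, ha.2 k hk, hb.2 k hk, add_zero]⟩
  smul_mem' := fun c a ha => ⟨(H d n).smul_mem c ha.1, fun k hk => by
    rw [LinearMap.smul_comp, ha.2 k hk, smul_zero]⟩

/-- The subspace of `PH_n` spanned by the `p · w - p` with `p ∈ PH_n` and `w ∈ GL_d`; here
`p · w = p ∘ act w`. -/
def coinvRel (d n : ℕ) : Submodule (ZMod 2) (PH d n) :=
  Submodule.span (ZMod 2) {q | ∃ (p : PH d n) (w : GL (Fin d) (ZMod 2)),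
    (q : P d →ₗ[ZMod 2] ZMod 2) = (p : P d →ₗ[ZMod 2] ZMod 2).comp (act w.val).toLinearMap - p}

/-- The coinvariants `F₂ ⊗_{GL_d} PH_n`. -/
abbrev Coinv (d n : ℕ) : Type := PH d n ⧸ coinvRel d n

/-- The linear endomorphism of `P_d` which sends `x^t` to `x^((t-1)/2)` if all `t_i` are odd, and to
`0` otherwise. -/
def kam {d : ℕ} : P d →ₗ[ZMod 2] P d :=
  (basisMonomials (Fin d) (ZMod 2)).constr (ZMod 2)
    (fun t => if ∀ i, Odd (t i) then monomial (t.mapRange (fun a => (a - 1) / 2) rfl) 1 else 0)

/-- The element `∏ a_i^(s_i)` of the divided power algebra: the dual basis element of `x^s`. -/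
def a {d : ℕ} (s : Fin d →₀ ℕ) : P d →ₗ[ZMod 2] ZMod 2 :=
  lcoeff (ZMod 2) s

variable {d : ℕ}

@[simp] lemma act_X (w : Matrix (Fin d) (Fin d) (ZMod 2)) (j : Fin d) :
    act w (X j) = ∑ i, C (w i j) * X i := by simp [act]

@[simp] lemma totalSq_X (i : Fin d) :
    totalSq d (X i) = Polynomial.C (X i) + Polynomial.C (X i ^ 2) * Polynomial.X := by
  simp [totalSq]

lemma Sq_apply (k : ℕ) (f : P d) : Sq k f = (totalSq d f).coeff k := rfl

lemma mem_H {n : ℕ} {p : P d →ₗ[ZMod 2] ZMod 2} :
    p ∈ H d n ↔ ∀ s : Fin d →₀ ℕ, s.degree ≠ n → p (monomial s 1) = 0 := Iff.rfl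

lemma mem_PH {n : ℕ} {p : P d →ₗ[ZMod 2] ZMod 2} :
    p ∈ PH d n ↔ p ∈ H d n ∧ ∀ k > 0, p.comp (Sq k) = 0 := Iff.rfl

lemma zmod2_sq (x : ZMod 2) : x ^ 2 = x := by
  revert x; decide

instance : CharP (P d) 2 := inferInstance

lemma lin_sq (c : Fin d → ZMod 2) :
    (∑ i, C (c i) * X i : P d) ^ 2 = ∑ i, C (c i) * X i ^ 2 := by
  rw [sum_pow_char 2]
  refine Finset.sum_congr rfl fun i _ => ?_
  rw [mul_pow, ← C_pow, zmod2_sq]

lemma totalSq_act (w : Matrix (Fin d) (Fin d) (ZMod 2)) (f : P d) :
    totalSq d (act w f) = Polynomial.map (act w : P d →+* P d) (totalSq d f) := by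
  have : (totalSq d).comp (act w) = (Polynomial.mapAlgHom (act w)).comp (totalSq d) := by
    apply MvPolynomial.algHom_ext
    intro j
    simp only [AlgHom.comp_apply, act_X, totalSq_X, map_sum, map_mul, map_add,
      Polynomial.coe_mapAlgHom, Polynomial.map_C,
      Polynomial.map_X, map_pow]
    simp only [AlgHom.coe_toRingHom, act_X]
    have h1 : ∀ c : ZMod 2, totalSq d (C c) = Polynomial.C (C c) := by
      intro c
      have := (totalSq d).commutes c
      rw [MvPolynomial.algebraMap_eq] at this
      rw [this]; rfl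
    simp only [h1]
    rw [← map_pow Polynomial.C (∑ i, C (w i j) * X i : P d), lin_sq, map_sum, map_sum,
      Finset.sum_mul, ← Finset.sum_add_distrib]
    refine Finset.sum_congr rfl fun i _ => ?_
    rw [map_mul, map_mul, map_pow]
    ring
  have h := DFunLike.congr_fun this f
  simpa using h

lemma Sq_act (w : Matrix (Fin d) (Fin d) (ZMod 2)) (k : ℕ) (f : P d) :
    Sq k (act w f) = act w (Sq k f) := by
  rw [Sq_apply, totalSq_act, Polynomial.coeff_map, Sq_apply]
  rfl

lemma act_mul (w w' : Matrix (Fin d) (Fin d) (ZMod 2)) (f : P d) :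
    act w (act w' f) = act (w * w') f := by
  have : (act w).comp (act w') = act (w * w') := by
    apply MvPolynomial.algHom_ext
    intro j
    simp only [AlgHom.comp_apply, act_X, map_sum, map_mul]
    have h1 : ∀ c : ZMod 2, act w (C c) = C c := fun c => (act w).commutes c
    simp only [h1, Matrix.mul_apply, map_sum, map_mul, Finset.mul_sum, Finset.sum_mul]
    rw [Finset.sum_comm]
    refine Finset.sum_congr rfl fun i _ => Finset.sum_congr rfl fun l _ => ?_
    ring
  exact DFunLike.congr_fun this f

lemma act_isHomogeneous (w : Matrix (Fin d) (Fin d) (ZMod 2)) (s : Fin d →₀ ℕ) :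
    (act w (monomial s 1)).IsHomogeneous s.degree := by
  have h := (isHomogeneous_monomial (1 : ZMod 2) (d := s) (n := s.degree) rfl)
  have h2 := h.aeval (fun j => ∑ i, C (w i j) * X i : Fin d → P d) (n := 1) ?_
  · simpa [act] using h2
  · intro j
    refine MvPolynomial.IsHomogeneous.sum _ _ _ fun i _ => ?_
    simpa using (isHomogeneous_C (Fin d) (w i j)).mul (isHomogeneous_X (ZMod 2) i)

lemma H_act {n : ℕ} {p : P d →ₗ[ZMod 2] ZMod 2} (hp : p ∈ H d n)
    (w : Matrix (Fin d) (Fin d) (ZMod 2)) : p.comp (act w).toLinearMap ∈ H d n := by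
  intro s hs
  rw [LinearMap.comp_apply, AlgHom.toLinearMap_apply, (act w (monomial s 1)).as_sum, map_sum]
  refine Finset.sum_eq_zero fun t ht => ?_
  have hdeg : t.degree = s.degree := by
    have := act_isHomogeneous w s (mem_support_iff.1 ht)
    rw [← this, Finsupp.degree_eq_weight_one]
    rfl
  have h0 := hp t (by rw [hdeg]; exact hs)
  have : monomial t (coeff t (act w (monomial s 1))) =
      coeff t (act w (monomial s 1)) • (monomial t 1 : P d) := by
    rw [smul_monomial]; simp
  rw [this, map_smul, h0, smul_zero]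

lemma PH_act {n : ℕ} {p : P d →ₗ[ZMod 2] ZMod 2} (hp : p ∈ PH d n)
    (w : Matrix (Fin d) (Fin d) (ZMod 2)) : p.comp (act w).toLinearMap ∈ PH d n := by
  refine ⟨H_act hp.1 w, fun k hk => ?_⟩
  refine LinearMap.ext fun f => ?_
  have := LinearMap.congr_fun (hp.2 k hk) (act w f)
  simp only [LinearMap.comp_apply, LinearMap.zero_apply, AlgHom.toLinearMap_apply] at this ⊢
  rw [← Sq_act, this]

/-! ### Kameko's map -/

lemma kam_monomial (t : Fin d →₀ ℕ) :
    kam (monomial t 1 : P d) = if ∀ i, Odd (t i) then
      monomial (t.mapRange (fun a => (a - 1) / 2) rfl) 1 else 0 := by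
  have : (monomial t 1 : P d) = basisMonomials (Fin d) (ZMod 2) t := by simp
  rw [this, kam, Module.Basis.constr_basis]

lemma monomial_eq_smul (t : Fin d →₀ ℕ) (c : ZMod 2) :
    (monomial t c : P d) = c • monomial t 1 := by
  rw [smul_monomial]; simp

lemma kam_sq_mul (g h : P d) : kam (g ^ 2 * h) = g * kam h := by
  induction g using MvPolynomial.induction_on' with
  | monomial u c =>
    induction h using MvPolynomial.induction_on' with
    | monomial t e =>
      rw [monomial_eq_smul u, monomial_eq_smul t, smul_pow, zmod2_sq, monomial_pow, one_pow,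
        smul_mul_smul_comm, map_smul, map_smul, smul_mul_smul_comm, monomial_mul, one_mul,
        kam_monomial, kam_monomial]
      congr 1
      by_cases ht : ∀ i, Odd (t i)
      · rw [if_pos, if_pos ht, monomial_mul, one_mul]
        · have : Finsupp.mapRange (fun a => (a - 1) / 2) rfl (2 • u + t) =
              u + Finsupp.mapRange (fun a => (a - 1) / 2) rfl t := by
            ext i
            have := ht i
            simp only [Finsupp.mapRange_apply, Finsupp.add_apply, Finsupp.smul_apply, smul_eq_mul]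
            obtain ⟨m, hm⟩ := this
            omega
          rw [this]
        · intro i
          simp only [Finsupp.add_apply, Finsupp.smul_apply, smul_eq_mul]
          obtain ⟨m, hm⟩ := ht i
          exact ⟨u i + m, by omega⟩
      · rw [if_neg, if_neg ht, mul_zero]
        intro h
        apply ht
        intro i
        have := h i
        simp only [Finsupp.add_apply, Finsupp.smul_apply, smul_eq_mul] at this
        obtain ⟨m, hm⟩ := this
        exact ⟨m - u i, by omega⟩
    | add p q hp hq => rw [mul_add, map_add, hp, hq, map_add, mul_add]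
  | add p q hp hq => rw [add_pow_char, add_mul, map_add, hp, hq, add_mul]

lemma kam_eq_zero_of_lt {f : P d} (hf : f.totalDegree < d) : kam f = 0 := by
  rw [f.as_sum, map_sum]
  refine Finset.sum_eq_zero fun t ht => ?_
  rw [monomial_eq_smul, map_smul, kam_monomial, if_neg, smul_zero]
  intro h
  have h1 := le_totalDegree ht
  have h2 : d ≤ t.sum fun _ e => e := by
    rw [Finsupp.sum_fintype _ _ (by simp)]
    calc d = ∑ i : Fin d, 1 := by simp
      _ ≤ _ := Finset.sum_le_sum fun i _ => (h i).pos
  omega

lemma prod_X_ones : (∏ j : Fin d, X j : P d) = monomial (Finsupp.equivFunOnFinite.symm 1) 1 := by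
  rw [monomial_eq, Finsupp.prod_fintype _ _ (by simp)]
  simp

lemma kam_ones : kam (∏ j : Fin d, X j : P d) = 1 := by
  rw [prod_X_ones, kam_monomial, if_pos (by simp)]
  have : Finsupp.mapRange (fun a => (a - 1) / 2) rfl
      (Finsupp.equivFunOnFinite.symm (1 : Fin d → ℕ)) = 0 := by
    ext i; simp
  rw [this]; rfl

lemma kam_prod_X (σ : Fin d → Fin d) (hσ : ¬ Function.Bijective σ) :
    kam (∏ j : Fin d, X (σ j) : P d) = 0 := by
  have hs : ¬ Function.Surjective σ := fun h => hσ ⟨Finite.injective_iff_surjective.2 h, h⟩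
  have : (∏ j : Fin d, X (σ j) : P d) = monomial (∑ j, Finsupp.single (σ j) 1) 1 := by
    rw [monomial_sum_one]; rfl
  rw [this, kam_monomial, if_neg]
  intro h
  apply hs
  intro i
  by_contra hi
  push Not at hi
  have := h i
  rw [Finsupp.finsetSum_apply, Finset.sum_eq_zero] at this
  · exact absurd this (by decide)
  · intro j _
    exact Finsupp.single_eq_of_ne (hi j).symm

lemma kam_act_ones (w : Matrix (Fin d) (Fin d) (ZMod 2)) :
    kam (act w (∏ j : Fin d, X j)) = C w.det := by
  rw [map_prod]
  simp only [act_X]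
  rw [Finset.prod_univ_sum, map_sum, Matrix.det_apply, map_sum, Fintype.piFinset_univ]
  have h1 : ∀ σ : Fin d → Fin d, kam (∏ j, C (w (σ j) j) * X (σ j) : P d) =
      if Function.Bijective σ then C (∏ j, w (σ j) j) else 0 := by
    intro σ
    rw [Finset.prod_mul_distrib, ← map_prod, C_mul', map_smul]
    split_ifs with h
    · have : (∏ j : Fin d, X (σ j) : P d) = ∏ j, X j := Function.Bijective.prod_comp h _
      rw [this, kam_ones, ← C_mul', mul_one]
    · rw [kam_prod_X σ h, smul_zero]
  simp only [h1]
  rw [← Finset.sum_filter]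
  refine Finset.sum_bij (fun σ h => Equiv.ofBijective σ (Finset.mem_filter.1 h).2) ?_ ?_ ?_ ?_
  · intro σ _; exact Finset.mem_univ _
  · intro σ _ τ _ h
    exact congrArg (fun e : Equiv.Perm (Fin d) => (e : Fin d → Fin d)) h
  · intro e _
    exact ⟨e, Finset.mem_filter.2 ⟨Finset.mem_univ _, e.bijective⟩, by ext; rfl⟩
  · intro σ h
    congr 1
    have hs : ∀ (u : ℤˣ) (x : ZMod 2), u • x = x := by
      intro u x
      rcases Int.units_eq_one_or u with rfl | rfl
      · simp
      · rw [Units.neg_smul, one_smul]; revert x; decide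
    rw [hs]
    rfl

/-- Every monomial is a square times a squarefree monomial. -/
lemma monomial_split (t : Fin d →₀ ℕ) : ∃ (u : Fin d →₀ ℕ) (A : Finset (Fin d)),
    (monomial t 1 : P d) = (monomial u 1) ^ 2 * ∏ i ∈ A, X i := by
  classical
  refine ⟨t.mapRange (fun a => a / 2) rfl, Finset.univ.filter fun i => Odd (t i), ?_⟩
  have : (∏ i ∈ Finset.univ.filter (fun i => Odd (t i)), X i : P d) =
      monomial (∑ i ∈ Finset.univ.filter (fun i => Odd (t i)), Finsupp.single i 1) 1 := by
    rw [monomial_sum_one]; rfl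
  rw [this, monomial_pow, one_pow, monomial_mul, one_mul]
  congr 1
  congr 1
  ext i
  rw [Finsupp.add_apply, Finsupp.finsetSum_apply, Finsupp.smul_apply, Finsupp.mapRange_apply,
    smul_eq_mul]
  have h2 : ∑ c ∈ Finset.univ.filter (fun i => Odd (t i)), (Finsupp.single c 1) i =
      if Odd (t i) then 1 else 0 := by
    simp only [Finsupp.single_apply, Finset.sum_ite_eq', Finset.mem_filter, Finset.mem_univ,
      true_and]
  rw [h2]
  split_ifs with h
  · obtain ⟨m, hm⟩ := h; omega
  · rw [Nat.not_odd_iff_even] at h; obtain ⟨m, hm⟩ := h; omega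

lemma kam_act (w : Matrix (Fin d) (Fin d) (ZMod 2)) (hw : w.det = 1) (f : P d) :
    kam (act w f) = act w (kam f) := by
  induction f using MvPolynomial.induction_on' with
  | monomial t c =>
    rw [monomial_eq_smul, map_smul, map_smul, map_smul, map_smul]
    congr 1
    obtain ⟨u, A, h⟩ := monomial_split t
    rw [h, map_mul, map_pow, kam_sq_mul, kam_sq_mul, map_mul]
    congr 1
    by_cases hA : A = Finset.univ
    · subst hA
      rw [kam_act_ones, hw, kam_ones, map_one, map_one]
    · have hc : A.card < d := by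
        have := Finset.card_lt_card (Finset.ssubset_univ_iff.2 hA)
        simpa using this
      rw [kam_eq_zero_of_lt, kam_eq_zero_of_lt, map_zero]
      · refine lt_of_le_of_lt (totalDegree_finsetProd _ _) ?_
        refine lt_of_le_of_lt (Finset.sum_le_card_nsmul _ _ 1 ?_) (by simpa using hc)
        intro i _
        simp
      · rw [map_prod]
        refine lt_of_le_of_lt (totalDegree_finsetProd _ _) ?_
        refine lt_of_le_of_lt (Finset.sum_le_card_nsmul _ _ 1 ?_) (by simpa using hc)
        intro i _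
        rw [act_X]
        refine (totalDegree_finsetSum _ _).trans ?_
        refine Finset.sup_le fun j _ => ?_
        refine (totalDegree_mul _ _).trans ?_
        rw [totalDegree_C]
        simp
  | add p q hp hq => simp only [map_add, hp, hq]

lemma coeff_sq (F : Polynomial (P d)) (i : ℕ) :
    (F ^ 2).coeff i = if 2 ∣ i then (F.coeff (i / 2)) ^ 2 else 0 := by
  rw [← Polynomial.map_frobenius_expand 2 F, Polynomial.coeff_map,
    Polynomial.coeff_expand (by norm_num)]
  split_ifs
  · rfl
  · simp

lemma kam_coeff_totalSq (A : Finset (Fin d)) (j : ℕ) (hj : 0 < j) :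
    kam ((totalSq d (∏ i ∈ A, X i)).coeff j) = 0 := by
  classical
  rw [map_prod]
  simp only [totalSq_X]
  rw [Finset.prod_add, Polynomial.finsetSum_coeff, map_sum]
  refine Finset.sum_eq_zero fun B hB => ?_
  rw [Finset.mem_powerset] at hB
  rw [Finset.prod_mul_distrib, Finset.prod_const, ← map_prod, ← map_prod, ← mul_assoc, ← map_mul,
    Polynomial.coeff_C_mul, Polynomial.coeff_X_pow]
  split_ifs with h
  · rw [mul_one]
    have h1 : (∏ i ∈ B, X i : P d) * ∏ i ∈ A \ B, X i ^ 2 =
        monomial (∑ i ∈ B, Finsupp.single i 1 + ∑ i ∈ A \ B, Finsupp.single i 2) 1 := by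
      rw [← one_mul (1 : ZMod 2), ← monomial_mul, monomial_sum_one, monomial_sum_one]
      congr 1
      refine Finset.prod_congr rfl fun i _ => ?_
      rw [X_pow_eq_monomial]
    rw [h1, kam_monomial, if_neg]
    intro h2
    have hne : (A \ B).Nonempty := by
      rw [← Finset.card_pos, ← h]; exact hj
    obtain ⟨i, hi⟩ := hne
    have h3 := h2 i
    rw [Finsupp.add_apply, Finsupp.finsetSum_apply, Finsupp.finsetSum_apply] at h3
    have h4 : ∑ k ∈ B, (Finsupp.single k 1) i = 0 := by
      refine Finset.sum_eq_zero fun k hk => ?_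
      refine Finsupp.single_eq_of_ne ?_
      rintro rfl
      exact (Finset.mem_sdiff.1 hi).2 hk
    have h5 : ∑ k ∈ A \ B, (Finsupp.single k 2) i = 2 := by
      simp only [Finsupp.single_apply, Finset.sum_ite_eq', if_pos hi]
    rw [h4, h5] at h3
    exact absurd h3 (by decide)
  · rw [mul_zero, map_zero]

lemma kam_Sq (m : ℕ) (f : P d) :
    kam (Sq m f) = if 2 ∣ m then Sq (m / 2) (kam f) else 0 := by
  induction f using MvPolynomial.induction_on' with
  | monomial t c =>
    rw [monomial_eq_smul]
    simp only [map_smul]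
    obtain ⟨u, A, h⟩ := monomial_split t
    have key : kam (Sq m (monomial t 1 : P d)) =
        if 2 ∣ m then Sq (m / 2) (kam (monomial t 1)) else 0 := by
      rw [h, Sq_apply, map_mul, map_pow, Polynomial.coeff_mul, map_sum, kam_sq_mul]
      have h1 : ∀ x ∈ Finset.HasAntidiagonal.antidiagonal m,
          kam (((totalSq d (monomial u 1)) ^ 2).coeff x.1 * (totalSq d (∏ i ∈ A, X i)).coeff x.2) =
          if x.2 = 0 then (if 2 ∣ m then (totalSq d (monomial u 1)).coeff (m / 2) *
            kam (∏ i ∈ A, X i) else 0) else 0 := by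
        intro x hx
        rw [Finset.HasAntidiagonal.mem_antidiagonal] at hx
        rw [coeff_sq]
        split_ifs with h2 h3 h4 h5 h6
        · rw [kam_sq_mul, h3]
          have : x.1 = m := by omega
          rw [this]
          congr 1
          congr 1
          rw [Polynomial.coeff_zero_eq_eval_zero, map_prod, Polynomial.eval_prod]
          refine Finset.prod_congr rfl fun i _ => ?_
          simp
        · exfalso; omega
        · rw [kam_sq_mul, kam_coeff_totalSq _ _ (Nat.pos_of_ne_zero h3), mul_zero]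
        · exfalso; omega
        · rw [zero_mul, map_zero]
        · rw [zero_mul, map_zero]
      rw [Finset.sum_congr rfl h1]
      have h2 : ∀ K : P d, ∑ x ∈ Finset.HasAntidiagonal.antidiagonal m,
          (if x.2 = 0 then K else 0) = K := by
        intro K
        rw [Finset.sum_eq_single (m, 0)]
        · simp
        · rintro ⟨i, j⟩ hx hne
          rw [Finset.HasAntidiagonal.mem_antidiagonal] at hx
          rw [if_neg]
          rintro rfl
          simp only [add_zero] at hx
          exact hne (by rw [hx])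
        · intro h
          simp at h
      rw [h2]
      split_ifs with h3
      · by_cases hA : A = Finset.univ
        · rw [hA, kam_ones, mul_one, mul_one, Sq_apply]
        · have : kam (∏ i ∈ A, X i : P d) = 0 := by
            have hc : A.card < d := by
              have := Finset.card_lt_card (Finset.ssubset_univ_iff.2 hA)
              simpa using this
            apply kam_eq_zero_of_lt
            refine lt_of_le_of_lt (totalDegree_finsetProd _ _) ?_
            refine lt_of_le_of_lt (Finset.sum_le_card_nsmul _ _ 1 ?_) (by simpa using hc)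
            intro i _
            simp
          rw [this, mul_zero, mul_zero, map_zero]
      · rfl
    rw [key]
    split_ifs
    · rfl
    · rw [smul_zero]
  | add p q hp hq =>
    simp only [map_add, hp, hq]
    split_ifs
    · rfl
    · rw [add_zero]

lemma PH_kam {n : ℕ} {p : P d →ₗ[ZMod 2] ZMod 2} (hp : p ∈ PH d n) :
    p.comp kam ∈ PH d (d + 2 * n) := by
  refine ⟨fun s hs => ?_, fun k hk => LinearMap.ext fun f => ?_⟩
  · rw [LinearMap.comp_apply, kam_monomial]
    split_ifs with h
    · refine hp.1 _ fun h1 => hs ?_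
      rw [Finsupp.degree_eq_sum] at h1 ⊢
      rw [← h1, Finset.mul_sum]
      have h2 : ∀ i, s i = 1 + 2 * (s.mapRange (fun a => (a - 1) / 2) rfl i) := by
        intro i
        rw [Finsupp.mapRange_apply]
        obtain ⟨m, hm⟩ := h i
        omega
      rw [Finset.sum_congr rfl fun i _ => h2 i, Finset.sum_add_distrib]
      simp
    · exact map_zero _
  · rw [LinearMap.comp_apply, LinearMap.comp_apply, kam_Sq, LinearMap.zero_apply]
    split_ifs with h
    · have := LinearMap.congr_fun (hp.2 (k / 2) (by omega)) (kam f)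
      exact this
    · exact map_zero _

/-- Kameko's map `PH_n → PH_{d+2n}`, the restriction of the linear map sending `∏ a_i^(s_i)` to
`∏ a_i^(2 s_i + 1)` (see `a_comp_kam`). -/
def kamPH (d n : ℕ) : PH d n →ₗ[ZMod 2] PH d (d + 2 * n) where
  toFun p := ⟨(p : P d →ₗ[ZMod 2] ZMod 2).comp kam, PH_kam p.2⟩
  map_add' p q := by apply Subtype.ext; exact LinearMap.add_comp _ _ _
  map_smul' c p := by apply Subtype.ext; exact LinearMap.smul_comp _ _ _

lemma coinvRel_le_comap (d n : ℕ) :
    coinvRel d n ≤ (coinvRel d (d + 2 * n)).comap (kamPH d n) := by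
  rw [coinvRel, Submodule.span_le]
  rintro q ⟨p, w, hq⟩
  refine Submodule.subset_span ⟨kamPH d n p, w, ?_⟩
  change (q : P d →ₗ[ZMod 2] ZMod 2).comp kam =
    ((p : P d →ₗ[ZMod 2] ZMod 2).comp kam).comp (act w.val).toLinearMap -
      (p : P d →ₗ[ZMod 2] ZMod 2).comp kam
  rw [hq]
  refine LinearMap.ext fun f => ?_
  simp only [LinearMap.comp_apply, LinearMap.sub_apply, AlgHom.toLinearMap_apply]
  have hw : w.val.det = 1 := by
    have h1 : IsUnit w.val.det := (Matrix.isUnit_iff_isUnit_det _).1 w.isUnit
    have h2 : ∀ x : ZMod 2, x ≠ 0 → x = 1 := by decide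
    exact h2 _ h1.ne_zero
  rw [kam_act _ hw]

/-- Kameko's squaring operation on coinvariants,
`F₂ ⊗_{GL_d} PH_n → F₂ ⊗_{GL_d} PH_{d+2n}`. -/
def squaring (d n : ℕ) : Coinv d n →ₗ[ZMod 2] Coinv d (d + 2 * n) :=
  Submodule.mapQ _ _ (kamPH d n) (coinvRel_le_comap d n)

lemma a_monomial (s t : Fin d →₀ ℕ) : a s (monomial t 1 : P d) = if t = s then 1 else 0 := by
  rw [a, lcoeff_apply, coeff_monomial]

lemma ext_monomial {p q : P d →ₗ[ZMod 2] ZMod 2}
    (h : ∀ t, p (monomial t 1) = q (monomial t 1)) : p = q := by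
  refine (basisMonomials (Fin d) (ZMod 2)).ext fun t => ?_
  simpa using h t

/-- Kameko's map sends `∏ a_i^(s_i)` to `∏ a_i^(2 s_i + 1)`. -/
lemma a_comp_kam (s : Fin d →₀ ℕ) :
    (a s : P d →ₗ[ZMod 2] ZMod 2).comp kam =
      a (Finsupp.equivFunOnFinite.symm fun i => 2 * s i + 1) := by
  refine ext_monomial fun t => ?_
  rw [LinearMap.comp_apply, kam_monomial, a_monomial]
  split_ifs with h1 h2 h2
  · rw [a_monomial, if_pos]
    ext i
    rw [Finsupp.mapRange_apply, h2]
    simp
  · rw [a_monomial, if_neg]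
    intro h3
    apply h2
    ext i
    have h4 := DFunLike.congr_fun h3 i
    rw [Finsupp.mapRange_apply] at h4
    rw [Finsupp.equivFunOnFinite_symm_apply_apply]
    obtain ⟨m, hm⟩ := h1 i
    omega
  · exfalso
    apply h1
    intro i
    rw [h2, Finsupp.equivFunOnFinite_symm_apply_apply]
    exact ⟨s i, by omega⟩
  · exact map_zero _

end

end Q181.Kameko
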