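import Pool.Agent.Q181.Kameko.Basic

/-!
# Primitive functionals on products of distinct two-power digits
-/

open MvPolynomial

namespace Q181.Kameko

noncomputable section

variable {d : ℕ}

/-- `∏ x_{l_t}^(2^(s+t))`. -/
def M (s : ℕ) : List (Fin d) → P d
  | [] => 1
  | i :: l => X i ^ 2 ^ s * M (s + 1) l

@[simp] lemma M_nil (s : ℕ) : M s ([] : List (Fin d)) = 1 := rfl
lemma M_cons (s : ℕ) (i : Fin d) (l : List (Fin d)) : M s (i :: l) = X i ^ 2 ^ s * M (s + 1) l := rfl

lemma M_append (s : ℕ) (l l' : List (Fin d)) : M s (l ++ l') = M s l * M (s + l.length) l' := by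
  induction l generalizing s with
  | nil => simp
  | cons i l ih =>
    rw [List.cons_append, M_cons, ih, M_cons, mul_assoc, List.length_cons]
    congr 3
    omega

lemma totalSq_X_pow (i : Fin d) (s : ℕ) : totalSq d (X i ^ 2 ^ s) =
    Polynomial.C (X i ^ 2 ^ s) + Polynomial.C (X i ^ 2 ^ (s + 1)) * Polynomial.X ^ 2 ^ s := by
  rw [map_pow, totalSq_X, add_pow_char_pow, ← map_pow, mul_pow, ← map_pow, ← pow_mul, pow_succ' 2 s]

/-- Low digits: `T`-degree is small, and the constant coefficient is the monomial itself. -/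
lemma totalSq_M_low (s : ℕ) (l : List (Fin d)) :
    (totalSq d (M s l)).coeff 0 = M s l ∧
      (totalSq d (M s l)).natDegree + 2 ^ s ≤ 2 ^ (s + l.length) := by
  induction l generalizing s with
  | nil => simp
  | cons i l ih =>
    obtain ⟨h1, h2⟩ := ih (s + 1)
    rw [M_cons, map_mul, totalSq_X_pow]
    constructor
    · rw [Polynomial.mul_coeff_zero, h1]
      congr 1
      have h0 : (2 : ℕ) ^ s ≠ 0 := by positivity
      rw [Polynomial.coeff_add, Polynomial.coeff_C_zero, Polynomial.mul_coeff_zero,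
        Polynomial.coeff_X_pow, if_neg h0.symm, mul_zero, add_zero]
    · have h3 : (Polynomial.C (X i ^ 2 ^ s) + Polynomial.C (X i ^ 2 ^ (s + 1)) *
          Polynomial.X ^ 2 ^ s : Polynomial (P d)).natDegree ≤ 2 ^ s := by
        refine (Polynomial.natDegree_add_le _ _).trans ?_
        rw [Polynomial.natDegree_C]
        exact max_le (Nat.zero_le _) (Polynomial.natDegree_C_mul_X_pow_le _ _)
      have h4 := Polynomial.natDegree_mul_le (p := (Polynomial.C (X i ^ 2 ^ s) +
        Polynomial.C (X i ^ 2 ^ (s + 1)) * Polynomial.X ^ 2 ^ s : Polynomial (P d)))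
        (q := totalSq d (M (s + 1) l))
      rw [List.length_cons]
      have h5 : s + (l.length + 1) = s + 1 + l.length := by omega
      rw [h5]
      have h6 : (2 : ℕ) ^ (s + 1) = 2 ^ s + 2 ^ s := by ring
      omega

/-- High digits: the total square is constant up to high order. -/
lemma totalSq_M_high (s : ℕ) (l : List (Fin d)) :
    ∃ F : Polynomial (P d), totalSq d (M s l) = Polynomial.C (M s l) + Polynomial.X ^ 2 ^ s * F := by
  induction l generalizing s with
  | nil => exact ⟨0, by simp⟩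
  | cons i l ih =>
    obtain ⟨F, hF⟩ := ih (s + 1)
    rw [M_cons, map_mul, totalSq_X_pow, hF]
    refine ⟨Polynomial.C (X i ^ 2 ^ s) * Polynomial.X ^ 2 ^ s * F +
      Polynomial.C (X i ^ 2 ^ (s + 1)) * (Polynomial.C (M (s + 1) l) +
        Polynomial.X ^ 2 ^ (s + 1) * F), ?_⟩
    have h6 : (2 : ℕ) ^ (s + 1) = 2 ^ s + 2 ^ s := by ring
    rw [map_mul]
    have h7 : (Polynomial.X : Polynomial (P d)) ^ 2 ^ (s + 1) =
      Polynomial.X ^ 2 ^ s * Polynomial.X ^ 2 ^ s := by rw [h6, pow_add]
    rw [h7]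
    ring

/-- Exchanging two consecutive digits does not change the value of a primitive functional. -/
lemma swap_adj {p : P d →ₗ[ZMod 2] ZMod 2} (hp : ∀ k > 0, p.comp (Sq k) = 0)
    (l : List (Fin d)) (i j : Fin d) (l' : List (Fin d)) :
    p (M 0 (l ++ i :: j :: l')) = p (M 0 (l ++ j :: i :: l')) := by
  set t := l.length with ht
  have h := LinearMap.congr_fun (hp (2 ^ t) (by positivity))
    (M 0 l * (X i ^ 2 ^ t * X j ^ 2 ^ t * M (t + 2) l'))
  rw [LinearMap.comp_apply, LinearMap.zero_apply, Sq_apply, map_mul, map_mul, map_mul,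
    totalSq_X_pow, totalSq_X_pow] at h
  obtain ⟨F, hF⟩ := totalSq_M_high (t + 2) l'
  obtain ⟨h1, h2⟩ := totalSq_M_low 0 l
  rw [hF] at h
  set L := totalSq d (M 0 l) with hL
  rw [zero_add, ← ht, pow_zero] at h2
  have h4 : (2 : ℕ) ^ (t + 2) = 2 ^ t + 2 ^ t + 2 ^ t + 2 ^ t := by ring
  have h5 : (L * ((Polynomial.C (X i ^ 2 ^ t) + Polynomial.C (X i ^ 2 ^ (t + 1)) *
      Polynomial.X ^ 2 ^ t) * (Polynomial.C (X j ^ 2 ^ t) + Polynomial.C (X j ^ 2 ^ (t + 1)) *
      Polynomial.X ^ 2 ^ t) * (Polynomial.C (M (t + 2) l') +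
      Polynomial.X ^ 2 ^ (t + 2) * F))) =
      L * Polynomial.C (X i ^ 2 ^ t * X j ^ 2 ^ t * M (t + 2) l') +
      (L * Polynomial.C ((X i ^ 2 ^ t * X j ^ 2 ^ (t + 1) + X i ^ 2 ^ (t + 1) * X j ^ 2 ^ t) *
        M (t + 2) l')) * Polynomial.X ^ 2 ^ t +
      (L * (Polynomial.C (X i ^ 2 ^ (t + 1) * X j ^ 2 ^ (t + 1) * M (t + 2) l') +
        (Polynomial.C (X i ^ 2 ^ t) + Polynomial.C (X i ^ 2 ^ (t + 1)) *
          Polynomial.X ^ 2 ^ t) * (Polynomial.C (X j ^ 2 ^ t) + Polynomial.C (X j ^ 2 ^ (t + 1)) *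
          Polynomial.X ^ 2 ^ t) * F * Polynomial.X ^ (2 ^ t + 2 ^ t))) *
          Polynomial.X ^ (2 ^ t + 2 ^ t) := by
    rw [h4]
    simp only [pow_add, map_mul, map_add, pow_one]
    ring
  rw [h5, Polynomial.coeff_add, Polynomial.coeff_add, Polynomial.coeff_mul_X_pow',
    Polynomial.coeff_mul_X_pow', if_pos le_rfl, if_neg (by
      have : 0 < 2 ^ t := by positivity
      omega), add_zero, Nat.sub_self, Polynomial.coeff_mul_C, Polynomial.coeff_mul_C,
    Polynomial.coeff_eq_zero_of_natDegree_lt (by omega), zero_mul, zero_add, h1] at h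
  rw [M_append, M_append, zero_add, ← ht, M_cons, M_cons, M_cons, M_cons]
  have h6 : M 0 l * ((X i ^ 2 ^ t * X j ^ 2 ^ (t + 1) + X i ^ 2 ^ (t + 1) * X j ^ 2 ^ t) *
        M (t + 2) l') = M 0 l * (X i ^ 2 ^ t * (X j ^ 2 ^ (t + 1) * M (t + 1 + 1) l')) +
        M 0 l * (X j ^ 2 ^ t * (X i ^ 2 ^ (t + 1) * M (t + 1 + 1) l')) := by
    have : t + 1 + 1 = t + 2 := rfl
    rw [this]
    ring
  rw [h6, map_add] at h
  exact CharTwo.add_eq_zero.1 h

/-- The second elementary move. -/
lemma move_dup {p : P d →ₗ[ZMod 2] ZMod 2} (hp : ∀ k > 0, p.comp (Sq k) = 0)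
    (i j : Fin d) (l : List (Fin d)) :
    p (M 0 (i :: i :: j :: l)) = p (M 0 (j :: j :: i :: l)) := by
  have h := LinearMap.congr_fun (hp 1 one_pos) (X i ^ 3 * X j ^ 3 * M 3 l)
  rw [LinearMap.comp_apply, LinearMap.zero_apply, Sq_apply, map_mul, map_mul, map_pow, map_pow,
    totalSq_X, totalSq_X] at h
  obtain ⟨F, hF⟩ := totalSq_M_high 3 l
  rw [hF] at h
  have h5 : ((Polynomial.C (X i) + Polynomial.C (X i ^ 2) * Polynomial.X) ^ 3 *
      (Polynomial.C (X j) + Polynomial.C (X j ^ 2) * Polynomial.X) ^ 3 *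
      (Polynomial.C (M 3 l) + Polynomial.X ^ 2 ^ 3 * F)) =
      Polynomial.C (X i ^ 3 * X j ^ 3 * M 3 l) +
      Polynomial.C (3 * (X i ^ 4 * X j ^ 3 + X i ^ 3 * X j ^ 4) * M 3 l) * Polynomial.X +
      ((Polynomial.C (X i) + Polynomial.C (X i ^ 2) * Polynomial.X) ^ 3 *
      (Polynomial.C (X j) + Polynomial.C (X j ^ 2) * Polynomial.X) ^ 3 *
        (Polynomial.X ^ 6 * F) +
        Polynomial.C (M 3 l) * (Polynomial.C (X i)^3 * (3 * Polynomial.C (X j)^5 +
          Polynomial.C (X j) ^ 6 * Polynomial.X) + 3 * Polynomial.C (X i)^4 * (3 *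
          Polynomial.C (X j)^4 + 3 * Polynomial.C (X j) ^ 5 * Polynomial.X +
          Polynomial.C (X j)^6 * Polynomial.X ^ 2) + (3 * Polynomial.C (X i)^5 +
          Polynomial.C (X i) ^ 6 * Polynomial.X) * (Polynomial.C (X j) + Polynomial.C (X j ^ 2) *
          Polynomial.X) ^ 3)) * Polynomial.X ^ 2 := by
    simp only [map_mul, map_add, map_pow, map_ofNat]
    ring
  rw [h5, Polynomial.coeff_add, Polynomial.coeff_add, Polynomial.coeff_mul_X_pow',
    if_neg (by norm_num), add_zero, Polynomial.coeff_C, if_neg one_ne_zero, zero_add,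
    Polynomial.coeff_C_mul, Polynomial.coeff_X_one, mul_one] at h
  have h6 : (3 * (X i ^ 4 * X j ^ 3 + X i ^ 3 * X j ^ 4) * M 3 l : P d) =
      M 0 (j :: j :: i :: l) + M 0 (i :: i :: j :: l) := by
    rw [M_cons, M_cons, M_cons, M_cons, M_cons, M_cons]
    have h3 : (3 : P d) = 1 := by
      have : (2 : P d) = 0 := CharTwo.two_eq_zero
      calc (3 : P d) = 2 + 1 := by norm_num
        _ = 1 := by rw [this, zero_add]
    rw [h3]
    norm_num
    ring
  rw [h6, map_add] at h
  exact (CharTwo.add_eq_zero.1 h).symm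

lemma perm_value {p : P d →ₗ[ZMod 2] ZMod 2} (hp : ∀ k > 0, p.comp (Sq k) = 0)
    {l l' : List (Fin d)} (h : l.Perm l') (pre : List (Fin d)) :
    p (M 0 (pre ++ l)) = p (M 0 (pre ++ l')) := by
  induction h generalizing pre with
  | nil => rfl
  | cons x _ ih =>
    have := ih (pre ++ [x])
    simpa using this
  | swap x y l => exact swap_adj hp pre y x l
  | trans _ _ ih1 ih2 => exact (ih1 pre).trans (ih2 pre)

/-- The value of a primitive functional, as a function of the multiset of variables. -/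
def V (p : P d →ₗ[ZMod 2] ZMod 2) (s : Multiset (Fin d)) : ZMod 2 := p (M 0 s.toList)

lemma V_coe {p : P d →ₗ[ZMod 2] ZMod 2} (hp : ∀ k > 0, p.comp (Sq k) = 0) (l : List (Fin d)) :
    V p (l : Multiset (Fin d)) = p (M 0 l) := by
  have h : (l : Multiset (Fin d)).toList.Perm l := by
    rw [← Multiset.coe_eq_coe, Multiset.coe_toList]
  exact perm_value hp h []

lemma V_move {p : P d →ₗ[ZMod 2] ZMod 2} (hp : ∀ k > 0, p.comp (Sq k) = 0)
    (i j : Fin d) (s : Multiset (Fin d)) :
    V p (i ::ₘ i ::ₘ j ::ₘ s) = V p (j ::ₘ j ::ₘ i ::ₘ s) := by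
  induction s using Quotient.inductionOn with
  | h l =>
    change V p ((i :: i :: j :: l : List (Fin d)) : Multiset (Fin d)) =
      V p ((j :: j :: i :: l : List (Fin d)) : Multiset (Fin d))
    rw [V_coe hp, V_coe hp, move_dup hp]

/-- Changing one surplus element. -/
lemma V_surplus {p : P d →ₗ[ZMod 2] ZMod 2} (hp : ∀ k > 0, p.comp (Sq k) = 0)
    (J : Finset (Fin d)) {i j : Fin d} (hi : i ∈ J) (hj : j ∈ J) (e : Multiset (Fin d)) :
    V p (J.val + i ::ₘ e) = V p (J.val + j ::ₘ e) := by
  classical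
  by_cases hij : i = j
  · rw [hij]
  have h1 : J.val = i ::ₘ j ::ₘ ((J.erase i).erase j).val := by
    rw [Finset.erase_val, Multiset.cons_erase, Finset.erase_val, Multiset.cons_erase]
    · exact hi
    · exact Finset.mem_erase.2 ⟨fun h => hij h.symm, hj⟩
  rw [h1]
  have h2 := V_move hp i j (((J.erase i).erase j).val + e)
  have h3 : i ::ₘ j ::ₘ ((J.erase i).erase j).val + i ::ₘ e =
      i ::ₘ i ::ₘ j ::ₘ (((J.erase i).erase j).val + e) := by
    simp only [Multiset.cons_add, Multiset.add_cons]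
    try rw [Multiset.cons_swap j i]
  have h4 : i ::ₘ j ::ₘ ((J.erase i).erase j).val + j ::ₘ e =
      j ::ₘ j ::ₘ i ::ₘ (((J.erase i).erase j).val + e) := by
    simp only [Multiset.cons_add, Multiset.add_cons]
    rw [Multiset.cons_swap i j]
  rw [h3, h4, h2]

lemma V_canon {p : P d →ₗ[ZMod 2] ZMod 2} (hp : ∀ k > 0, p.comp (Sq k) = 0)
    (J : Finset (Fin d)) {j : Fin d} (hj : j ∈ J) (e : Multiset (Fin d)) (he : ∀ i ∈ e, i ∈ J)
    (r : Multiset (Fin d)) :
    V p (J.val + (e + r)) = V p (J.val + (Multiset.replicate e.card j + r)) := by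
  induction e using Multiset.induction_on generalizing r with
  | empty => simp
  | cons i e ih =>
    have h1 := ih (fun x hx => he x (Multiset.mem_cons_of_mem hx)) (i ::ₘ r)
    rw [Multiset.cons_add, ← Multiset.add_cons, h1, Multiset.add_cons,
      V_surplus hp J (he i (Multiset.mem_cons_self _ _)) hj,
      Multiset.card_cons, Multiset.replicate_succ, Multiset.cons_add]

/-- A primitive functional takes the same value on two products of digits with the same support. -/
lemma V_eq_of_toFinset_eq {p : P d →ₗ[ZMod 2] ZMod 2} (hp : ∀ k > 0, p.comp (Sq k) = 0)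
    {s s' : Multiset (Fin d)} (hc : s.card = s'.card) (h : s.toFinset = s'.toFinset) :
    V p s = V p s' := by
  classical
  rcases s.toFinset.eq_empty_or_nonempty with h0 | ⟨j, hj⟩
  · have h1 : s = 0 := Multiset.toFinset_eq_empty.1 h0
    have h2 : s' = 0 := Multiset.toFinset_eq_empty.1 (h ▸ h0)
    rw [h1, h2]
  have key : ∀ u : Multiset (Fin d), u.toFinset = s.toFinset → u.card = s.card →
      V p u = V p (s.toFinset.val + (Multiset.replicate (s.card - s.toFinset.card) j + 0)) := by
    intro u hu huc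
    have h1 : u.toFinset.val ≤ u := by
      rw [Multiset.toFinset_val]; exact Multiset.dedup_le _
    obtain ⟨e, he⟩ := Multiset.le_iff_exists_add.1 h1
    have h2 : ∀ i ∈ e, i ∈ s.toFinset := by
      intro i hi
      rw [← hu, Multiset.mem_toFinset, he]
      exact Multiset.mem_add.2 (Or.inr hi)
    have h3 := V_canon hp s.toFinset hj e h2 0
    have h4 : e.card = s.card - s.toFinset.card := by
      have := congrArg Multiset.card he
      rw [Multiset.card_add, hu] at this
      have h5 : s.toFinset.card = Multiset.card s.toFinset.val := rfl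
      omega
    rw [h4] at h3
    rw [← h3, add_zero, ← hu, ← he]
  rw [key s rfl rfl, key s' h.symm hc.symm]

/-! ### Polynomials in the span of the digit monomials -/

/-- The monomial attached to a function. -/
def mf {k : ℕ} (φ : Fin k → Fin d) : P d := ∏ t, X (φ t) ^ 2 ^ (t : ℕ)

lemma M_ofFn (s : ℕ) {k : ℕ} (φ : Fin k → Fin d) :
    M s (List.ofFn φ) = ∏ t, X (φ t) ^ 2 ^ (s + (t : ℕ)) := by
  induction k generalizing s with
  | zero => simp
  | succ k ih =>
    rw [List.ofFn_succ, M_cons, ih, Fin.prod_univ_succ]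
    congr 1
    refine Finset.prod_congr rfl fun t _ => ?_
    rw [Fin.val_succ]
    congr 2
    omega

lemma mf_eq {k : ℕ} (φ : Fin k → Fin d) : mf φ = M 0 (List.ofFn φ) := by
  rw [M_ofFn]; simp [mf]

lemma value_mf {p : P d →ₗ[ZMod 2] ZMod 2} (hp : ∀ k > 0, p.comp (Sq k) = 0) {k : ℕ}
    {φ ψ : Fin k → Fin d} (h : Finset.univ.image φ = Finset.univ.image ψ) :
    p (mf φ) = p (mf ψ) := by
  rw [mf_eq, mf_eq, ← V_coe hp, ← V_coe hp]
  refine V_eq_of_toFinset_eq hp (by simp) ?_
  ext i
  have := Finset.ext_iff.1 h i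
  simpa using this

/-- A combination of digit monomials which vanishes at all points of `F₂^d` is killed by all
primitive functionals. -/
lemma killed {p : P d →ₗ[ZMod 2] ZMod 2} (hp : ∀ k > 0, p.comp (Sq k) = 0) {k : ℕ}
    (c : (Fin k → Fin d) → ZMod 2)
    (h : ∀ v : Fin d → ZMod 2, eval v (∑ φ, C (c φ) * mf φ) = 0) :
    p (∑ φ, C (c φ) * mf φ) = 0 := by
  classical
  -- the coefficient of a support
  let b : Finset (Fin d) → ZMod 2 := fun J => ∑ φ with Finset.univ.image φ = J, c φ
  have hb : ∀ J, b J = 0 := by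
    intro J
    induction J using Finset.strongInduction with
    | H J ih =>
      have h1 := h (fun i => if i ∈ J then 1 else 0)
      rw [map_sum] at h1
      have h2 : ∀ φ : Fin k → Fin d, eval (fun i => if i ∈ J then (1 : ZMod 2) else 0)
          (C (c φ) * mf φ) = if Finset.univ.image φ ⊆ J then c φ else 0 := by
        intro φ
        rw [map_mul, eval_C, mf, map_prod]
        simp only [map_pow, eval_X]
        split_ifs with h3
        · rw [Finset.prod_eq_one, mul_one]
          intro t _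
          rw [if_pos, one_pow]
          exact h3 (Finset.mem_image_of_mem _ (Finset.mem_univ _))
        · rw [Finset.image_subset_iff] at h3
          push Not at h3
          obtain ⟨t, -, ht⟩ := h3
          rw [Finset.prod_eq_zero (Finset.mem_univ t), mul_zero]
          rw [if_neg ht, zero_pow (by positivity)]
      rw [Finset.sum_congr rfl fun φ _ => h2 φ] at h1
      have h3 : ∑ φ : Fin k → Fin d, (if Finset.univ.image φ ⊆ J then c φ else 0) =
          ∑ I ∈ J.powerset, b I := by
        rw [← Finset.sum_filter]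
        rw [← Finset.sum_fiberwise_of_maps_to (t := J.powerset)
          (g := fun φ : Fin k → Fin d => Finset.univ.image φ)]
        · refine Finset.sum_congr rfl fun I hI => ?_
          refine Finset.sum_congr ?_ fun _ _ => rfl
          ext φ
          simp only [Finset.mem_filter, Finset.mem_univ, true_and]
          constructor
          · rintro ⟨-, h⟩; exact h
          · intro h; exact ⟨h ▸ Finset.mem_powerset.1 hI, h⟩
        · intro φ hφ
          exact Finset.mem_powerset.2 (Finset.mem_filter.1 hφ).2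
      rw [h3] at h1
      rw [← Finset.sum_erase_add _ _ (Finset.mem_powerset_self J), Finset.sum_eq_zero,
        zero_add] at h1
      · exact h1
      · intro I hI
        rw [Finset.mem_erase, Finset.mem_powerset] at hI
        exact ih I (Finset.ssubset_iff_subset_ne.2 ⟨hI.2, hI.1⟩)
  rw [map_sum]
  have h4 : ∀ φ : Fin k → Fin d, p (C (c φ) * mf φ) = c φ * p (mf φ) := by
    intro φ
    rw [C_mul', map_smul, smul_eq_mul]
  rw [Finset.sum_congr rfl fun φ _ => h4 φ,
    ← Finset.sum_fiberwise_of_maps_to (t := (Finset.univ : Finset (Finset (Fin d))))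
      (g := fun φ : Fin k → Fin d => Finset.univ.image φ) (fun _ _ => Finset.mem_univ _)]
  refine Finset.sum_eq_zero fun J _ => ?_
  rcases (Finset.univ.filter fun φ : Fin k → Fin d => Finset.univ.image φ = J).eq_empty_or_nonempty
    with h5 | ⟨φ₀, hφ₀⟩
  · rw [h5, Finset.sum_empty]
  · have h6 : ∀ φ ∈ Finset.univ.filter (fun φ : Fin k → Fin d => Finset.univ.image φ = J),
        c φ * p (mf φ) = c φ * p (mf φ₀) := by
      intro φ hφ
      rw [value_mf hp ((Finset.mem_filter.1 hφ).2.trans (Finset.mem_filter.1 hφ₀).2.symm)]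
    rw [Finset.sum_congr rfl h6, ← Finset.sum_mul]
    have := hb J
    simp only [b] at this
    rw [this, zero_mul]

end

end Q181.Kameko
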