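import Pool.Agent.Q181.Kameko.Digits

/-!
# The class of `a_j^(2^k-1)` in the coinvariants is nonzero for `k ≥ d`
-/

open MvPolynomial

namespace Q181.Kameko

noncomputable section

variable {d : ℕ}

lemma eval_act (w : Matrix (Fin d) (Fin d) (ZMod 2)) (v : Fin d → ZMod 2) (f : P d) :
    eval v (act w f) = eval (Matrix.vecMul v w) f := by
  have h : (aeval v : P d →ₐ[ZMod 2] ZMod 2).comp (act w) = aeval (Matrix.vecMul v w) := by
    apply MvPolynomial.algHom_ext
    intro j
    simp only [AlgHom.comp_apply, act_X, map_sum, map_mul, aeval_X, Matrix.vecMul, dotProduct]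
    refine Finset.sum_congr rfl fun i _ => ?_
    rw [← algebraMap_eq, AlgHom.commutes, mul_comm]
    rfl
  have := DFunLike.congr_fun h f
  simpa [coe_aeval_eq_eval] using this

lemma act_mf (w : Matrix (Fin d) (Fin d) (ZMod 2)) {k : ℕ} (φ : Fin k → Fin d) :
    act w (mf φ) = ∑ ψ : Fin k → Fin d, C (∏ t, w (ψ t) (φ t)) * mf ψ := by
  rw [mf, map_prod]
  have h1 : ∀ t : Fin k, act w (X (φ t) ^ 2 ^ (t : ℕ)) =
      ∑ i, C (w i (φ t)) * X i ^ 2 ^ (t : ℕ) := by
    intro t
    rw [map_pow, act_X, sum_pow_char_pow]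
    refine Finset.sum_congr rfl fun i _ => ?_
    rw [mul_pow, ← C_pow]
    congr 2
    have : ∀ (x : ZMod 2) (n : ℕ), n ≠ 0 → x ^ n = x := by
      intro x n hn
      have h2 : x = 0 ∨ x = 1 := by revert x; decide
      rcases h2 with rfl | rfl
      · exact zero_pow hn
      · exact one_pow _
    exact this _ _ (by positivity)
  rw [Finset.prod_congr rfl fun t _ => h1 t, Finset.prod_univ_sum, Fintype.piFinset_univ]
  refine Finset.sum_congr rfl fun ψ _ => ?_
  rw [Finset.prod_mul_distrib, ← map_prod]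
  rfl

lemma eval_mf {k : ℕ} (φ : Fin k → Fin d) (v : Fin d → ZMod 2) :
    eval v (mf φ) = if ∀ i ∈ Finset.univ.image φ, v i ≠ 0 then 1 else 0 := by
  classical
  rw [mf, map_prod]
  simp only [map_pow, eval_X]
  split_ifs with h
  · refine Finset.prod_eq_one fun t _ => ?_
    have h1 := h (φ t) (Finset.mem_image_of_mem _ (Finset.mem_univ _))
    have h2 : ∀ x : ZMod 2, x ≠ 0 → x = 1 := by decide
    rw [h2 _ h1, one_pow]
  · push Not at h
    obtain ⟨i, hi, hv⟩ := h
    obtain ⟨t, -, rfl⟩ := Finset.mem_image.1 hi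
    exact Finset.prod_eq_zero (Finset.mem_univ t) (by rw [hv, zero_pow (by positivity)])

/-- A function with a prescribed image. -/
lemma exists_image {k : ℕ} (hk : d ≤ k) (I : Finset (Fin d)) (hI : I.Nonempty) :
    ∃ φ : Fin k → Fin d, Finset.univ.image φ = I := by
  classical
  obtain ⟨i0, hi0⟩ := hI
  refine ⟨fun t => if h : (t : ℕ) < d then (if (⟨t, h⟩ : Fin d) ∈ I then ⟨t, h⟩ else i0) else i0, ?_⟩
  ext i
  rw [Finset.mem_image]
  constructor
  · rintro ⟨t, -, rfl⟩
    split_ifs with h1 h2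
    · exact h2
    · exact hi0
    · exact hi0
  · intro hi
    refine ⟨⟨i, lt_of_lt_of_le i.2 hk⟩, Finset.mem_univ _, ?_⟩
    dsimp only
    rw [dif_pos i.2, if_pos hi]

/-- The invariant polynomial (modulo hit elements). -/
def inv {k : ℕ} (Φ : {I : Finset (Fin d) // I.Nonempty} → (Fin k → Fin d)) : P d :=
  ∑ I, mf (Φ I)

lemma eval_inv {k : ℕ} (Φ : {I : Finset (Fin d) // I.Nonempty} → (Fin k → Fin d))
    (hΦ : ∀ I, Finset.univ.image (Φ I) = I.1) (v : Fin d → ZMod 2) :
    eval v (inv Φ) = if v = 0 then 0 else 1 := by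
  classical
  rw [inv, map_sum]
  simp only [eval_mf, hΦ]
  have h1 : ∑ I : {I : Finset (Fin d) // I.Nonempty}, (if ∀ i ∈ I.1, v i ≠ 0 then (1 : ZMod 2) else 0) =
      ∑ I ∈ ((Finset.univ.filter fun i => v i ≠ 0).powerset.erase ∅), 1 := by
    rw [← Finset.sum_filter]
    refine Finset.sum_bij (fun I _ => I.1) ?_ ?_ ?_ ?_
    · intro I hI
      rw [Finset.mem_filter] at hI
      rw [Finset.mem_erase, Finset.mem_powerset]
      exact ⟨I.2.ne_empty, fun i hi => Finset.mem_filter.2 ⟨Finset.mem_univ _, hI.2 i hi⟩⟩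
    · intro I _ J _ h; exact Subtype.ext h
    · intro I hI
      rw [Finset.mem_erase, Finset.mem_powerset] at hI
      exact ⟨⟨I, Finset.nonempty_iff_ne_empty.2 hI.1⟩, Finset.mem_filter.2 ⟨Finset.mem_univ _,
        fun i hi => (Finset.mem_filter.1 (hI.2 hi)).2⟩, rfl⟩
    · intro _ _; rfl
  rw [h1, Finset.sum_const, Finset.card_erase_of_mem (Finset.empty_mem_powerset _),
    Finset.card_powerset, nsmul_eq_mul, mul_one]
  split_ifs with hv
  · subst hv; simp
  · have : (Finset.univ.filter fun i => v i ≠ 0).card ≠ 0 := by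
      rw [Finset.card_ne_zero]
      by_contra h
      rw [Finset.not_nonempty_iff_eq_empty, Finset.filter_eq_empty_iff] at h
      apply hv
      ext i
      by_contra hi
      exact h (Finset.mem_univ i) hi
    obtain ⟨m, hm⟩ := Nat.exists_eq_succ_of_ne_zero this
    rw [hm, Nat.cast_sub Nat.one_le_two_pow, Nat.cast_pow, pow_succ]
    have h2 : (2 : ZMod 2) = 0 := rfl
    simp only [Nat.cast_ofNat, Nat.cast_one, h2, mul_zero]
    decide

/-- `inv` is invariant for all primitive functionals. -/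
lemma inv_invariant {p : P d →ₗ[ZMod 2] ZMod 2} (hp : ∀ k > 0, p.comp (Sq k) = 0) {k : ℕ}
    (Φ : {I : Finset (Fin d) // I.Nonempty} → (Fin k → Fin d))
    (hΦ : ∀ I, Finset.univ.image (Φ I) = I.1) (w : Matrix (Fin d) (Fin d) (ZMod 2))
    (hw : IsUnit w) : p (act w (inv Φ)) = p (inv Φ) := by
  classical
  have h1 : act w (inv Φ) - inv Φ = ∑ ψ : Fin k → Fin d,
      C (∑ I, (∏ t, w (ψ t) (Φ I t)) - ∑ I, (if Φ I = ψ then 1 else 0)) * mf ψ := by
    simp only [map_sub, sub_mul, Finset.sum_sub_distrib]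
    congr 1
    · rw [inv, map_sum]
      simp only [act_mf]
      rw [Finset.sum_comm]
      refine Finset.sum_congr rfl fun ψ _ => ?_
      rw [map_sum, Finset.sum_mul]
    · rw [inv]
      simp only [map_sum, Finset.sum_mul]
      rw [Finset.sum_comm]
      refine Finset.sum_congr rfl fun I _ => ?_
      rw [Finset.sum_eq_single (Φ I)]
      · simp
      · intro ψ _ hψ
        rw [if_neg hψ.symm, map_zero, zero_mul]
      · intro h; exact absurd (Finset.mem_univ _) h
  have h2 : p (act w (inv Φ) - inv Φ) = 0 := by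
    rw [h1]
    refine killed hp _ fun v => ?_
    rw [← h1, map_sub, eval_act, eval_inv Φ hΦ, eval_inv Φ hΦ]
    have h3 : Matrix.vecMul v w = 0 ↔ v = 0 := by
      constructor
      · intro h
        exact (Matrix.vecMul_injective_iff_isUnit.2 hw) (by simpa using h)
      · rintro rfl; simp
    simp only [h3, sub_self]
  rw [map_sub] at h2
  exact sub_eq_zero.1 h2

/-- The functional `p ↦ p (inv Φ)` vanishes on the relations of the coinvariants. -/
lemma relations_killed {n k : ℕ} (Φ : {I : Finset (Fin d) // I.Nonempty} → (Fin k → Fin d))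
    (hΦ : ∀ I, Finset.univ.image (Φ I) = I.1) (q : PH d n) (hq : q ∈ coinvRel d n) :
    (q : P d →ₗ[ZMod 2] ZMod 2) (inv Φ) = 0 := by
  rw [coinvRel] at hq
  induction hq using Submodule.span_induction with
  | mem q hq =>
    obtain ⟨p, w, hpw⟩ := hq
    rw [hpw, LinearMap.sub_apply, LinearMap.comp_apply, AlgHom.toLinearMap_apply,
      inv_invariant p.2.2 Φ hΦ w.val w.isUnit, sub_self]
  | zero => rfl
  | add x y _ _ hx hy =>
    rw [Submodule.coe_add, LinearMap.add_apply, hx, hy, add_zero]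
  | smul c x _ hx =>
    rw [Submodule.coe_smul, LinearMap.smul_apply, hx, smul_zero]

lemma mf_eq_monomial {k : ℕ} (φ : Fin k → Fin d) :
    (mf φ : P d) = monomial (∑ t, Finsupp.single (φ t) (2 ^ (t : ℕ))) 1 := by
  rw [monomial_sum_one, mf]
  refine Finset.prod_congr rfl fun t _ => ?_
  rw [X_pow_eq_monomial]

/-- The class of `a_j^(2^k-1)` takes the value `1` on `inv Φ`. -/
lemma a_inv {k : ℕ} (Φ : {I : Finset (Fin d) // I.Nonempty} → (Fin k → Fin d))
    (hΦ : ∀ I, Finset.univ.image (Φ I) = I.1) (j : Fin d) :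
    (a (Finsupp.single j (2 ^ k - 1)) : P d →ₗ[ZMod 2] ZMod 2) (inv Φ) = 1 := by
  classical
  rw [inv, map_sum]
  simp only [mf_eq_monomial, a_monomial]
  rw [Finset.sum_eq_single ⟨{j}, Finset.singleton_nonempty j⟩]
  · rw [if_pos]
    have h1 : ∀ t : Fin k, Φ ⟨{j}, Finset.singleton_nonempty j⟩ t = j := by
      intro t
      have h2 := hΦ ⟨{j}, Finset.singleton_nonempty j⟩
      have h3 := Finset.mem_image_of_mem (Φ ⟨{j}, Finset.singleton_nonempty j⟩)
        (Finset.mem_univ t)
      rw [h2] at h3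
      exact Finset.mem_singleton.1 h3
    simp only [h1]
    rw [← Finsupp.single_finsetSum]
    congr 1
    rw [Fin.sum_univ_eq_sum_range (fun i => 2 ^ i) k, Nat.geomSum_eq le_rfl]
    simp
  · intro I _ hI
    rw [if_neg]
    intro h
    apply hI
    apply Subtype.ext
    change I.1 = {j}
    have h1 : ∀ i ∈ I.1, i = j := by
      intro i hi
      rw [← hΦ I, Finset.mem_image] at hi
      obtain ⟨t, -, ht⟩ := hi
      by_contra hij
      have h2 := DFunLike.congr_fun h i
      rw [Finsupp.finsetSum_apply, Finsupp.single_eq_of_ne hij] at h2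
      have h3 := (Finset.sum_eq_zero_iff.1 h2) t (Finset.mem_univ t)
      rw [ht, Finsupp.single_eq_same] at h3
      exact absurd h3 (by positivity)
    exact Finset.eq_singleton_iff_nonempty_unique_mem.2 ⟨I.2, h1⟩
  · intro h; exact absurd (Finset.mem_univ _) h

end

end Q181.Kameko
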