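import Pool.Agent.Q181.Kameko.Basic

/-!
# A relation in the coinvariants
-/

open MvPolynomial

namespace Q181.Kameko

noncomputable section

variable {d : ℕ}

lemma choose_even (k : ℕ) : ∀ t κ : ℕ, 0 < κ → t + κ = 2 ^ k - 1 → ((t.choose κ : ℕ) : ZMod 2) = 0 := by
  induction k with
  | zero => intro t κ h1 h2; simp at h2; omega
  | succ k ih =>
    intro t κ h1 h2
    have h3 := Choose.choose_modEq_choose_mod_mul_choose_div_nat (n := t) (k := κ) (p := 2)
    rw [← ZMod.natCast_eq_natCast_iff] at h3
    rw [h3, Nat.cast_mul]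
    have h4 : (2 : ℕ) ^ (k + 1) = 2 * 2 ^ k := by ring
    have h5 : 0 < 2 ^ k := by positivity
    rcases Nat.mod_two_eq_zero_or_one κ with h | h
    · rw [ih (t / 2) (κ / 2) (by omega) (by omega), mul_zero]
    · have : t % 2 = 0 := by omega
      rw [this, h]; simp

lemma totalSq_monomial (t : Fin d →₀ ℕ) : totalSq d (monomial t 1) =
    ∑ κ ∈ Fintype.piFinset (fun i => Finset.range (t i + 1)),
      Polynomial.C (monomial (t + Finsupp.equivFunOnFinite.symm κ)
        (∏ i, ((t i).choose (κ i) : ZMod 2))) * Polynomial.X ^ (∑ i, κ i) := by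
  have h0 : (monomial t 1 : P d) = ∏ i, X i ^ t i := by
    rw [monomial_eq, Finsupp.prod_fintype _ _ (by simp), map_one, one_mul]
  rw [h0, map_prod]
  have h1 : ∀ i, totalSq d (X i ^ t i) = ∑ κ ∈ Finset.range (t i + 1),
      Polynomial.C (C ((t i).choose κ : ZMod 2) * X i ^ (t i + κ)) * Polynomial.X ^ κ := by
    intro i
    rw [map_pow, totalSq_X, add_comm, add_pow]
    refine Finset.sum_congr rfl fun κ hκ => ?_
    rw [Finset.mem_range] at hκ
    rw [map_mul, map_pow, map_pow, mul_pow, ← pow_mul]
    have : (Polynomial.C (X i) : Polynomial (P d)) ^ (t i + κ) =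
        Polynomial.C (X i) ^ (2 * κ) * Polynomial.C (X i) ^ (t i - κ) := by
      rw [← pow_add]; congr 1; omega
    rw [this]
    have h2 : (((t i).choose κ : ℕ) : Polynomial (P d)) =
      Polynomial.C (C ((t i).choose κ : ZMod 2)) := by simp
    rw [h2]
    ring
  rw [Finset.prod_congr rfl fun i _ => h1 i, Finset.prod_univ_sum]
  refine Finset.sum_congr rfl fun κ _ => ?_
  rw [Finset.prod_mul_distrib, Finset.prod_pow_eq_pow_sum, ← map_prod]
  congr 2
  rw [Finset.prod_mul_distrib, ← map_prod, monomial_eq, Finsupp.prod_fintype _ _ (by simp)]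
  rfl

/-- The formula for the dual Steenrod squares on the divided power algebra:
`Sq^k_*(∏ a_i^(s_i)) = ∑_{κ_1+…+κ_d=k} ∏ (s_i-κ_i choose κ_i) a_i^(s_i-κ_i)`. -/
lemma a_comp_Sq (s : Fin d →₀ ℕ) (k : ℕ) :
    (a s : P d →ₗ[ZMod 2] ZMod 2).comp (Sq k) =
      ∑ κ ∈ (Fintype.piFinset fun i => Finset.range (s i + 1)) with ∑ i, κ i = k,
        (∏ i, (((s i - κ i).choose (κ i) : ℕ) : ZMod 2)) •
          a (s - Finsupp.equivFunOnFinite.symm κ) := by
  classical
  refine ext_monomial fun t => ?_
  rw [LinearMap.comp_apply, Sq_apply, totalSq_monomial, Polynomial.finsetSum_coeff, map_sum,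
    LinearMap.sum_apply]
  have hL : ∀ κ : Fin d → ℕ, (a s : P d →ₗ[ZMod 2] ZMod 2)
      ((Polynomial.C (monomial (t + Finsupp.equivFunOnFinite.symm κ)
        (∏ i, ((t i).choose (κ i) : ZMod 2))) * Polynomial.X ^ (∑ i, κ i)).coeff k) =
      if (∑ i, κ i = k ∧ t + Finsupp.equivFunOnFinite.symm κ = s) then
        ∏ i, ((t i).choose (κ i) : ZMod 2) else 0 := by
    intro κ
    rw [Polynomial.coeff_C_mul, Polynomial.coeff_X_pow]
    by_cases h1 : ∑ i, κ i = k
    · rw [if_pos h1.symm, mul_one, monomial_eq_smul, map_smul, a_monomial]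
      simp [h1]
    · rw [if_neg (fun h => h1 h.symm), mul_zero, map_zero, if_neg (fun h => h1 h.1)]
  rw [Finset.sum_congr rfl fun κ _ => hL κ]
  simp only [LinearMap.smul_apply, a_monomial, smul_eq_mul]
  rw [← Finset.sum_filter, ← Finset.sum_filter_ne_zero, ← Finset.sum_filter_ne_zero
    (s := (Fintype.piFinset fun i => Finset.range (s i + 1)).filter fun κ => ∑ i, κ i = k)]
  refine Finset.sum_congr ?_ ?_
  · ext κ
    simp only [Finset.mem_filter, Fintype.mem_piFinset, Finset.mem_range]
    constructor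
    · rintro ⟨⟨h1, h2, h3⟩, h4⟩
      have h5 : ∀ i, t i + κ i = s i := fun i => by rw [← h3]; rfl
      refine ⟨⟨fun i => by have := h5 i; omega, h2⟩, ?_⟩
      have h6 : t = s - Finsupp.equivFunOnFinite.symm κ := by
        rw [← h3, add_tsub_cancel_right]
      rw [if_pos h6, mul_one]
      have h7 : ∀ i, s i - κ i = t i := fun i => by have := h5 i; omega
      simpa only [h7] using h4
    · rintro ⟨⟨h1, h2⟩, h4⟩
      have h6 : t = s - Finsupp.equivFunOnFinite.symm κ := by
        by_contra h; rw [if_neg h, mul_zero] at h4; exact h4 rfl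
      have h5 : ∀ i, t i = s i - κ i := fun i => by rw [h6]; rfl
      rw [if_pos h6, mul_one] at h4
      have h7 : ∀ i, t i + κ i = s i := fun i => by have := h5 i; have := h1 i; omega
      have h8 : t + Finsupp.equivFunOnFinite.symm κ = s := by ext i; exact h7 i
      have h9 : (∏ i, ((t i).choose (κ i) : ZMod 2)) ≠ 0 := by simpa only [h5] using h4
      refine ⟨⟨fun i => ?_, h2, h8⟩, h9⟩
      by_contra h
      apply h9
      rw [Finset.prod_eq_zero (Finset.mem_univ i)]
      rw [Nat.choose_eq_zero_of_lt (by omega), Nat.cast_zero]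
  · intro κ hκ
    simp only [Finset.mem_filter, Fintype.mem_piFinset, Finset.mem_range] at hκ
    obtain ⟨⟨h1, h2⟩, h4⟩ := hκ
    have h6 : t = s - Finsupp.equivFunOnFinite.symm κ := by
      by_contra h; rw [if_neg h, mul_zero] at h4; exact h4 rfl
    have h5 : ∀ i, t i = s i - κ i := fun i => by rw [h6]; rfl
    rw [if_pos h6, mul_one]
    simp only [h5]

/-- Products of `a_i^(2^k_i - 1)` are primitive. -/
lemma a_mem_PH (e : Fin d →₀ ℕ) (h : ∀ i, ∃ k, e i = 2 ^ k - 1) :
    (a e : P d →ₗ[ZMod 2] ZMod 2) ∈ PH d e.degree := by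
  refine ⟨fun s hs => ?_, fun m hm => ext_monomial fun t => ?_⟩
  · rw [a_monomial, if_neg]
    rintro rfl
    exact hs rfl
  · rw [LinearMap.comp_apply, Sq_apply, totalSq_monomial, Polynomial.finsetSum_coeff, map_sum,
      LinearMap.zero_apply]
    refine Finset.sum_eq_zero fun κ _ => ?_
    rw [Polynomial.coeff_C_mul, Polynomial.coeff_X_pow]
    split_ifs with h1
    · rw [mul_one, monomial_eq_smul, map_smul, a_monomial]
      split_ifs with h2
      · obtain ⟨i, hi⟩ : ∃ i, 0 < κ i := by
          by_contra hcon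
          push Not at hcon
          rw [h1, Finset.sum_eq_zero fun i _ => Nat.le_zero.1 (hcon i)] at hm
          exact lt_irrefl _ hm
        obtain ⟨k, hk⟩ := h i
        rw [Finset.prod_eq_zero (Finset.mem_univ i), zero_smul]
        refine choose_even k _ _ hi ?_
        rw [← hk, ← h2]
        simp
      · rw [smul_zero]
    · rw [mul_zero, map_zero]

/-- The relations as a subspace of the dual of `P_d`. -/
def rel (d n : ℕ) : Submodule (ZMod 2) (P d →ₗ[ZMod 2] ZMod 2) :=
  (coinvRel d n).map (PH d n).subtype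

lemma rel_le_PH (d n : ℕ) : rel d n ≤ PH d n := by
  rintro x ⟨y, -, rfl⟩
  exact y.2

lemma mem_coinvRel_of_mem_rel {n : ℕ} {p : PH d n}
    (h : (p : P d →ₗ[ZMod 2] ZMod 2) ∈ rel d n) : p ∈ coinvRel d n := by
  obtain ⟨q, hq, hqp⟩ := h
  have : q = p := Subtype.ext hqp
  rwa [← this]

lemma rel_act {n : ℕ} {p : P d →ₗ[ZMod 2] ZMod 2} (hp : p ∈ PH d n)
    (w : GL (Fin d) (ZMod 2)) : p.comp (act w.val).toLinearMap - p ∈ rel d n :=
  ⟨⟨p.comp (act w.val).toLinearMap - p, (PH d n).sub_mem (PH_act hp _) hp⟩,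
    Submodule.subset_span ⟨⟨p, hp⟩, w, rfl⟩, rfl⟩

/-- The transvection with `x_j ↦ x_j + x_i`, as an element of `GL_d`. -/
def tv (i j : Fin d) (h : i ≠ j) : GL (Fin d) (ZMod 2) :=
  Matrix.GeneralLinearGroup.mkOfDetNeZero (Matrix.transvection i j 1)
    (by rw [Matrix.det_transvection_of_ne _ _ h]; exact one_ne_zero)

lemma act_tv_X {i j : Fin d} (h : i ≠ j) (l : Fin d) :
    act (tv i j h).val (X l) = if l = j then X j + X i else X l := by
  classical
  rw [act_X]
  have h1 : (tv i j h).val = Matrix.transvection i j 1 := rfl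
  rw [h1]
  simp only [Matrix.transvection, Matrix.add_apply, map_add, add_mul, Finset.sum_add_distrib]
  have h2 : ∑ x, C ((1 : Matrix (Fin d) (Fin d) (ZMod 2)) x l) * (X x : P d) = X l := by
    rw [Finset.sum_eq_single l]
    · simp
    · intro b _ hb
      rw [Matrix.one_apply_ne hb, map_zero, zero_mul]
    · intro h; exact absurd (Finset.mem_univ _) h
  rw [h2]
  split_ifs with h3
  · subst h3
    congr 1
    rw [Finset.sum_eq_single i]
    · simp
    · intro b _ hb
      rw [Matrix.single_apply_of_row_ne hb.symm, map_zero, zero_mul]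
    · intro h; exact absurd (Finset.mem_univ _) h
  · rw [Finset.sum_eq_zero, add_zero]
    intro b _
    rw [Matrix.single_apply_of_col_ne _ _ (fun h => h3 h.symm), map_zero, zero_mul]

lemma monomial_erase (t : Fin d →₀ ℕ) (j : Fin d) :
    (monomial t 1 : P d) = X j ^ t j * monomial (t.erase j) 1 := by
  rw [X_pow_eq_monomial, monomial_mul, one_mul, Finsupp.single_add_erase]

lemma act_tv_fix {i j : Fin d} (h : i ≠ j) (t : Fin d →₀ ℕ) (ht : t j = 0) :
    act (tv i j h).val (monomial t 1) = monomial t 1 := by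
  rw [monomial_eq, Finsupp.prod_fintype _ _ (by simp), map_one, one_mul, map_prod]
  refine Finset.prod_congr rfl fun l _ => ?_
  rw [map_pow, act_tv_X]
  split_ifs with h1
  · rw [h1, ht, pow_zero, pow_zero]
  · rfl

/-- A transvection applied to a functional which ignores the variable `x_j`. -/
lemma tv_eval {i j : Fin d} (h : i ≠ j) {p : P d →ₗ[ZMod 2] ZMod 2}
    (hp : ∀ s : Fin d →₀ ℕ, s j ≠ 0 → p (monomial s 1) = 0) (t : Fin d →₀ ℕ) :
    p (act (tv i j h).val (monomial t 1)) =
      p (monomial (t.erase j + Finsupp.single i (t j)) 1) := by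
  rw [monomial_erase t j, map_mul, map_pow, act_tv_X, if_pos rfl,
    act_tv_fix h _ Finsupp.erase_same, add_pow, Finset.sum_mul, map_sum,
    Finset.sum_eq_single 0]
  · rw [pow_zero, one_mul, Nat.sub_zero, Nat.choose_zero_right, Nat.cast_one, mul_one,
      X_pow_eq_monomial, monomial_mul, one_mul, add_comm]
  · intro b _ hb
    have h1 : (X j ^ b * X i ^ (t j - b) * ((t j).choose b : P d) * monomial (t.erase j) 1) =
        ((t j).choose b : ZMod 2) •
          monomial (Finsupp.single j b + Finsupp.single i (t j - b) + t.erase j) 1 := by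
      have h2 : (((t j).choose b : ℕ) : P d) = C ((t j).choose b : ZMod 2) := by simp
      rw [h2, X_pow_eq_monomial, X_pow_eq_monomial, monomial_mul, one_mul, mul_assoc, mul_comm,
        mul_assoc, C_mul', monomial_mul, one_mul, add_comm (Finsupp.erase j t)]
    rw [h1, map_smul, hp, smul_zero]
    simp [Finsupp.erase_same, h]
    exact hb
  · intro h1
    simp at h1

/-- The functional `γ_3(∑_{l ∈ S} a_l) ∏_{l ∉ T} a_l^(R_l)`. -/
def G (T S : Finset (Fin d)) (R : Fin d → ℕ) : P d →ₗ[ZMod 2] ZMod 2 :=
  (basisMonomials (Fin d) (ZMod 2)).constr (ZMod 2)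
    (fun t => open Classical in if (∑ l ∈ T, t l = 3) ∧ (∀ l ∈ T, l ∉ S → t l = 0) ∧ (∀ l ∉ T, t l = R l)
      then 1 else 0)

lemma G_monomial (T S : Finset (Fin d)) (R : Fin d → ℕ) (t : Fin d →₀ ℕ) :
    G T S R (monomial t 1) = open Classical in
      if (∑ l ∈ T, t l = 3) ∧ (∀ l ∈ T, l ∉ S → t l = 0) ∧ (∀ l ∉ T, t l = R l)
      then 1 else 0 := by
  have : (monomial t 1 : P d) = basisMonomials (Fin d) (ZMod 2) t := by simp
  rw [this, G, Module.Basis.constr_basis]

lemma G_tv {T S : Finset (Fin d)} {R : Fin d → ℕ} {i j : Fin d} (h : i ≠ j) (hi : i ∈ S)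
    (hiT : i ∈ T) (hj : j ∈ T) (hjS : j ∉ S) :
    (G T S R).comp (act (tv i j h).val).toLinearMap = G T (insert j S) R := by
  classical
  refine ext_monomial fun t => ?_
  rw [LinearMap.comp_apply, AlgHom.toLinearMap_apply, tv_eval h, G_monomial, G_monomial]
  · have h1 : ∀ l, (t.erase j + Finsupp.single i (t j)) l =
        if l = j then 0 else if l = i then t i + t j else t l := by
      intro l
      rw [Finsupp.add_apply]
      split_ifs with h2 h3
      · rw [h2, Finsupp.erase_same, Finsupp.single_eq_of_ne h.symm, add_zero]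
      · rw [h3, Finsupp.erase_ne h, Finsupp.single_eq_same]
      · rw [Finsupp.erase_ne h2, Finsupp.single_eq_of_ne h3, add_zero]
    have hsum : ∑ l ∈ T, (t.erase j + Finsupp.single i (t j)) l = ∑ l ∈ T, t l := by
      simp only [Finsupp.add_apply, Finset.sum_add_distrib]
      rw [← Finset.add_sum_erase T _ hj, ← Finset.add_sum_erase T (fun l => t l) hj,
        Finsupp.erase_same, zero_add, add_comm]
      congr 1
      · simp only [Finsupp.single_apply]
        rw [Finset.sum_ite_eq T i, if_pos hiT]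
      · refine Finset.sum_congr rfl fun l hl => ?_
        rw [Finsupp.erase_ne (Finset.ne_of_mem_erase hl)]
    refine if_congr ?_ rfl rfl
    rw [hsum]
    refine and_congr_right fun _ => and_congr ?_ ?_
    · constructor
      · intro h2 l hl hlS
        rw [Finset.mem_insert, not_or] at hlS
        have h3 := h2 l hl hlS.2
        rw [h1, if_neg hlS.1, if_neg] at h3
        · exact h3
        · rintro rfl; exact hlS.2 hi
      · intro h2 l hl hlS
        rw [h1]
        split_ifs with h3 h4
        · rfl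
        · rw [h4] at hlS; exact absurd hi hlS
        · refine h2 l hl ?_
          rw [Finset.mem_insert, not_or]
          exact ⟨h3, hlS⟩
    · refine forall_congr' fun l => ?_
      refine imp_congr_right fun hl => ?_
      rw [h1, if_neg, if_neg]
      · rintro rfl; exact hl hiT
      · rintro rfl; exact hl hj
  · intro s hs
    rw [G_monomial, if_neg]
    rintro ⟨-, h2, -⟩
    exact hs (h2 j hj hjS)

lemma rel_of_comp {n : ℕ} {p q : P d →ₗ[ZMod 2] ZMod 2} (hp : p ∈ PH d n)
    {w : GL (Fin d) (ZMod 2)} (h : p.comp (act w.val).toLinearMap = q) :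
    q ∈ PH d n ∧ q - p ∈ rel d n := by
  subst h
  exact ⟨PH_act hp _, rel_act hp _⟩

lemma act_one (f : P d) : act (1 : Matrix (Fin d) (Fin d) (ZMod 2)) f = f := by
  have : act (1 : Matrix (Fin d) (Fin d) (ZMod 2)) = AlgHom.id (ZMod 2) (P d) := by
    apply MvPolynomial.algHom_ext
    intro j
    rw [act_X, Finset.sum_eq_single j]
    · simp
    · intro b _ hb
      rw [Matrix.one_apply_ne hb, map_zero, zero_mul]
    · intro h; exact absurd (Finset.mem_univ _) h
  rw [this]; rfl

lemma rel_of_comp' {n : ℕ} {p q : P d →ₗ[ZMod 2] ZMod 2} (hq : q ∈ PH d n)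
    {w : GL (Fin d) (ZMod 2)} (h : p.comp (act w.val).toLinearMap = q) :
    p ∈ PH d n ∧ q - p ∈ rel d n := by
  have h1 : q.comp (act (w⁻¹).val).toLinearMap = p := by
    rw [← h]
    refine LinearMap.ext fun f => ?_
    simp only [LinearMap.comp_apply, AlgHom.toLinearMap_apply]
    rw [act_mul]
    have : w.val * (w⁻¹).val = 1 := by
      simp
    rw [this, act_one]
  have h2 : p ∈ PH d n := by rw [← h1]; exact PH_act hq _
  exact ⟨h2, (rel_of_comp h2 h).2⟩

section main

variable {n : ℕ} {i0 i1 i2 i3 : Fin d} (h01 : i0 ≠ i1) (h02 : i0 ≠ i2) (h12 : i1 ≠ i2)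
  (R : Fin d → ℕ)

include h01 h02 h12 in
lemma sum_seven :
    (a (Finsupp.equivFunOnFinite.symm fun l => if l ∈ ({i0, i1, i2} : Finset (Fin d)) then 1
      else R l) : P d →ₗ[ZMod 2] ZMod 2) =
    G {i0, i1, i2} {i2} R + G {i0, i1, i2} (insert i0 {i2}) R +
      G {i0, i1, i2} (insert i1 {i2}) R + G {i0, i1, i2} (insert i0 (insert i1 {i2})) R +
      G {i0, i1, i2} {i1} R + G {i0, i1, i2} (insert i0 {i1}) R + G {i0, i1, i2} {i0} R := by
  classical
  refine ext_monomial fun t => ?_
  simp only [LinearMap.add_apply, G_monomial, a_monomial]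
  have hsum : ∑ l ∈ ({i0, i1, i2} : Finset (Fin d)), t l = t i0 + t i1 + t i2 := by
    rw [Finset.sum_insert (by simp [h01, h02]), Finset.sum_insert (by simp [h12]),
      Finset.sum_singleton, add_assoc]
  simp only [hsum]
  by_cases hR : ∀ l ∉ ({i0, i1, i2} : Finset (Fin d)), t l = R l
  · have e1 : (t = Finsupp.equivFunOnFinite.symm fun l => if l ∈ ({i0, i1, i2} : Finset (Fin d))
        then 1 else R l) ↔ (t i0 = 1 ∧ t i1 = 1 ∧ t i2 = 1) := by
      constructor
      · intro h
        rw [h]
        simp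
      · rintro ⟨h0, h1, h2⟩
        ext l
        rw [Finsupp.equivFunOnFinite_symm_apply_apply]
        split_ifs with hl
        · simp only [Finset.mem_insert, Finset.mem_singleton] at hl
          rcases hl with rfl | rfl | rfl <;> assumption
        · exact hR l hl
    have hall : ∀ S : Finset (Fin d), (∀ l ∈ ({i0, i1, i2} : Finset (Fin d)), l ∉ S → t l = 0) ↔
        ((i0 ∉ S → t i0 = 0) ∧ (i1 ∉ S → t i1 = 0) ∧ (i2 ∉ S → t i2 = 0)) := by
      intro S
      simp
    have hrc := eq_true hR
    simp only [e1, hrc, and_true]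
    simp only [hall]
    simp only [Finset.mem_insert, Finset.mem_singleton, h01, h02, h12, h01.symm, h02.symm,
      h12.symm, or_false, false_or, not_false_eq_true, true_or, or_true, not_true_eq_false,
      forall_const, false_implies, true_and, and_true, IsEmpty.forall_iff]
    generalize t i0 = c0
    generalize t i1 = c1
    generalize t i2 = c2
    by_cases hc : c0 + c1 + c2 = 3
    · have b0 : c0 ≤ 3 := by omega
      have b1 : c1 ≤ 3 := by omega
      have b2 : c2 = 3 - c0 - c1 := by omega
      subst b2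
      interval_cases c0 <;> interval_cases c1 <;> first | omega | decide
    · rw [if_neg (by omega)]
      simp [hc]
  · rw [if_neg]
    · have : ∀ q r : Prop, (q ∧ r ∧ ∀ l ∉ ({i0, i1, i2} : Finset (Fin d)), t l = R l) ↔ False :=
        fun q r => ⟨fun h => hR h.2.2, False.elim⟩
      simp only [this, if_false, add_zero]
    · rintro rfl
      apply hR
      intro l hl
      rw [Finsupp.equivFunOnFinite_symm_apply_apply, if_neg hl]

include h01 h02 h12 in
/-- `a_{i0} a_{i1} a_{i2} R` is equivalent to `a_{i2}^(3) R`. -/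
lemma prod_equiv (hG : G {i0, i1, i2} {i2} R ∈ PH d n) :
    (a (Finsupp.equivFunOnFinite.symm fun l => if l ∈ ({i0, i1, i2} : Finset (Fin d)) then 1
      else R l) : P d →ₗ[ZMod 2] ZMod 2) - G {i0, i1, i2} {i2} R ∈ rel d n := by
  classical
  rw [sum_seven h01 h02 h12]
  set T : Finset (Fin d) := {i0, i1, i2} with hT
  have m0 : i0 ∈ T := by simp [hT]
  have m1 : i1 ∈ T := by simp [hT]
  have m2 : i2 ∈ T := by simp [hT]
  -- the chain of transvections
  obtain ⟨p02, r02⟩ := rel_of_comp hG (G_tv (R := R) (S := {i2}) (i := i2) (j := i0) h02.symm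
    (by simp) m2 m0 (by simp [h02]))
  obtain ⟨p12, r12⟩ := rel_of_comp hG (G_tv (R := R) (S := {i2}) (i := i2) (j := i1) h12.symm
    (by simp) m2 m1 (by simp [h12]))
  obtain ⟨p012, r012⟩ := rel_of_comp p12 (G_tv (R := R) (S := insert i1 {i2}) (i := i2) (j := i0)
    h02.symm (by simp) m2 m0 (by simp [h02, h01]))
  have e12 : insert i2 ({i1} : Finset (Fin d)) = insert i1 {i2} := Finset.pair_comm _ _
  have e02 : insert i2 ({i0} : Finset (Fin d)) = insert i0 {i2} := Finset.pair_comm _ _
  obtain ⟨p1, r1⟩ := rel_of_comp' p12 (e12 ▸ G_tv (R := R) (S := {i1}) (i := i1) (j := i2) h12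
    (by simp) m1 m2 (by simp [h12.symm]))
  obtain ⟨p0, r0⟩ := rel_of_comp' p02 (e02 ▸ G_tv (R := R) (S := {i0}) (i := i0) (j := i2) h02
    (by simp) m0 m2 (by simp [h02.symm]))
  obtain ⟨p01, r01⟩ := rel_of_comp p1 (G_tv (R := R) (S := {i1}) (i := i1) (j := i0) h01.symm
    (by simp) m1 m0 (by simp [h01]))
  generalize G T {i2} R = g2 at *
  generalize G T (insert i0 {i2}) R = g02 at *
  generalize G T (insert i0 (insert i1 {i2})) R = g012 at *
  generalize G T (insert i1 {i2}) R = g12 at *
  generalize G T (insert i0 {i1}) R = g01 at *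
  generalize G T {i1} R = g1 at *
  generalize G T {i0} R = g0 at *
  -- all generators are equivalent
  have k1 : g1 - g2 ∈ rel d n := by
    have := (rel d n).sub_mem r12 r1
    simpa using this
  have k0 : g0 - g2 ∈ rel d n := by
    have := (rel d n).sub_mem r02 r0
    simpa using this
  have k01 : g01 - g2 ∈ rel d n := by
    have := (rel d n).add_mem r01 k1
    rwa [sub_add_sub_cancel] at this
  have k012 : g012 - g2 ∈ rel d n := by
    have := (rel d n).add_mem r012 r12
    rwa [sub_add_sub_cancel] at this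
  have key := (rel d n).add_mem ((rel d n).add_mem ((rel d n).add_mem ((rel d n).add_mem
    ((rel d n).add_mem r02 r12) k012) k1) k01) k0
  have h2 : (2 : ZMod 2) = 0 := rfl
  have e : g2 + g02 + g12 + g012 + g1 + g01 + g0 - g2 =
      (g02 - g2 + (g12 - g2) + (g012 - g2) + (g1 - g2) + (g01 - g2) + (g0 - g2)) +
        ((2 : ZMod 2) • g2 + (2 : ZMod 2) • g2 + (2 : ZMod 2) • g2) := by
    have h3 : (2 : ZMod 2) • g2 = g2 + g2 := two_smul _ _
    rw [h3]
    abel
  rw [e, h2, zero_smul, add_zero, add_zero, add_zero]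
  exact key

end main

lemma single_tv {e : Fin d →₀ ℕ} {i j : Fin d} (h : i ≠ j) (hi : e i = 1) (hj : e j = 0) :
    (a e : P d →ₗ[ZMod 2] ZMod 2).comp (act (tv i j h).val).toLinearMap =
      a e + a (e.erase i + Finsupp.single j 1) := by
  classical
  refine ext_monomial fun t => ?_
  rw [LinearMap.comp_apply, AlgHom.toLinearMap_apply, tv_eval h, LinearMap.add_apply, a_monomial,
    a_monomial, a_monomial]
  · have e1 : t.erase j + Finsupp.single i (t j) = e ↔
        (t i + t j = 1 ∧ ∀ l, l ≠ i → l ≠ j → t l = e l) := by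
      constructor
      · intro he
        constructor
        · have := DFunLike.congr_fun he i
          rwa [Finsupp.add_apply, Finsupp.erase_ne h, Finsupp.single_eq_same, hi] at this
        · intro l hl hl'
          have := DFunLike.congr_fun he l
          rwa [Finsupp.add_apply, Finsupp.erase_ne hl', Finsupp.single_eq_of_ne hl,
            add_zero] at this
      · rintro ⟨h1, h2⟩
        ext l
        rw [Finsupp.add_apply]
        by_cases hl : l = j
        · rw [hl, Finsupp.erase_same, Finsupp.single_eq_of_ne h.symm, hj, add_zero]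
        · by_cases hl' : l = i
          · rw [hl', Finsupp.erase_ne h, Finsupp.single_eq_same, hi, h1]
          · rw [Finsupp.erase_ne hl, Finsupp.single_eq_of_ne hl', add_zero, h2 l hl' hl]
    have e2 : t = e ↔ (t i = 1 ∧ t j = 0 ∧ ∀ l, l ≠ i → l ≠ j → t l = e l) := by
      constructor
      · rintro rfl; exact ⟨hi, hj, fun _ _ _ => rfl⟩
      · rintro ⟨h1, h2, h3⟩
        ext l
        by_cases hl : l = i
        · rw [hl, h1, hi]
        · by_cases hl' : l = j
          · rw [hl', h2, hj]
          · exact h3 l hl hl'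
    have e3 : t = e.erase i + Finsupp.single j 1 ↔
        (t i = 0 ∧ t j = 1 ∧ ∀ l, l ≠ i → l ≠ j → t l = e l) := by
      constructor
      · rintro rfl
        refine ⟨?_, ?_, ?_⟩
        · rw [Finsupp.add_apply, Finsupp.erase_same, Finsupp.single_eq_of_ne h, add_zero]
        · rw [Finsupp.add_apply, Finsupp.erase_ne h.symm, Finsupp.single_eq_same, hj]
        · intro l hl hl'
          rw [Finsupp.add_apply, Finsupp.erase_ne hl, Finsupp.single_eq_of_ne hl', add_zero]
      · rintro ⟨h1, h2, h3⟩
        ext l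
        rw [Finsupp.add_apply]
        by_cases hl : l = i
        · rw [hl, h1, Finsupp.erase_same, Finsupp.single_eq_of_ne h, add_zero]
        · by_cases hl' : l = j
          · rw [hl', h2, Finsupp.erase_ne h.symm, hj, Finsupp.single_eq_same]
          · rw [h3 l hl hl', Finsupp.erase_ne hl, Finsupp.single_eq_of_ne hl', add_zero]
    simp only [e1, e2, e3]
    by_cases hR : ∀ l, l ≠ i → l ≠ j → t l = e l
    · have hrc := eq_true hR
      simp only [hrc, and_true]
      by_cases h1 : t i + t j = 1
      · rw [if_pos h1]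
        rcases Nat.eq_zero_or_pos (t i) with h2 | h2
        · rw [if_neg (by omega), if_pos (by omega), zero_add]
        · rw [if_pos (by omega), if_neg (by omega), add_zero]
      · rw [if_neg h1, if_neg (by omega), if_neg (by omega), add_zero]
    · have hrc := eq_false hR
      simp only [hrc, and_false, if_false, add_zero]
  · intro s hs
    rw [a_monomial, if_neg]
    rintro rfl
    exact hs hj

lemma a_mem_rel {n : ℕ} {e : Fin d →₀ ℕ} (he : (a e : P d →ₗ[ZMod 2] ZMod 2) ∈ PH d n)
    {i j : Fin d} (h : i ≠ j) (hi : e i = 1) (hj : e j = 0) :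
    (a e : P d →ₗ[ZMod 2] ZMod 2) ∈ rel d n := by
  have h1 : (a (e.erase i + Finsupp.single j 1) : P d →ₗ[ZMod 2] ZMod 2) ∈ rel d n := by
    have := rel_act he (tv i j h)
    rwa [single_tv h hi hj, add_sub_cancel_left] at this
  have h2 := rel_le_PH _ _ h1
  have h3 := rel_act h2 (tv j i h.symm)
  rw [single_tv h.symm, add_sub_cancel_left] at h3
  · have h4 : (e.erase i + Finsupp.single j 1).erase j + Finsupp.single i 1 = e := by
      ext l
      rw [Finsupp.add_apply]
      by_cases hl : l = i
      · rw [hl, Finsupp.erase_ne h, Finsupp.add_apply, Finsupp.erase_same,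
          Finsupp.single_eq_of_ne h, Finsupp.single_eq_same, hi, add_zero, zero_add]
      · by_cases hl' : l = j
        · rw [hl', Finsupp.erase_same, Finsupp.single_eq_of_ne h.symm, hj, add_zero]
        · rw [Finsupp.erase_ne hl', Finsupp.add_apply, Finsupp.erase_ne hl,
            Finsupp.single_eq_of_ne hl', Finsupp.single_eq_of_ne hl, add_zero, add_zero]
    rwa [h4] at h3
  · rw [Finsupp.add_apply, Finsupp.erase_ne h.symm, Finsupp.single_eq_same, hj]
  · rw [Finsupp.add_apply, Finsupp.erase_same, Finsupp.single_eq_of_ne h, add_zero]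

/-- The image of `a_j^(2^k-1)` under Kameko's map lies in the span of the relations if `d ≥ 5`. -/
theorem image_mem_rel (hd : 5 ≤ d) (N m : ℕ) (hN : N = 2 ^ m - 1) (j : Fin d) (n : ℕ)
    (hn : n = (d - 1) + N) :
    (a (Finsupp.equivFunOnFinite.symm fun l => if l = j then N else 1) :
      P d →ₗ[ZMod 2] ZMod 2) ∈ rel d n := by
  classical
  -- four further indices
  obtain ⟨s, hs, hsc⟩ : ∃ s : Finset (Fin d), s ⊆ Finset.univ.erase j ∧ s.card = 4 := by
    refine Finset.exists_subset_card_eq ?_
    rw [Finset.card_erase_of_mem (Finset.mem_univ j), Finset.card_univ, Fintype.card_fin]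
    omega
  obtain ⟨i0, s1, h0, hs1, hs1c⟩ := Finset.card_eq_succ.1 hsc
  obtain ⟨i1, i2, i3, h12, h13, h23, hs1'⟩ := Finset.card_eq_three.1 hs1c
  subst hs1'
  have hj : ∀ l ∈ s, l ≠ j := fun l hl => (Finset.mem_erase.1 (hs hl)).1
  rw [← hs1] at hj
  have h0j : i0 ≠ j := hj i0 (by simp)
  have h1j : i1 ≠ j := hj i1 (by simp)
  have h2j : i2 ≠ j := hj i2 (by simp)
  have h3j : i3 ≠ j := hj i3 (by simp)
  simp only [Finset.mem_insert, Finset.mem_singleton, not_or] at h0
  obtain ⟨h01, h02, h03⟩ := h0
  set R : Fin d → ℕ := fun l => if l = j then N else 1 with hR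
  set T : Finset (Fin d) := {i0, i1, i2} with hT
  have hjT : j ∉ T := by simp [hT, h0j.symm, h1j.symm, h2j.symm]
  have h3T : i3 ∉ T := by simp [hT, Ne.symm h03, h13.symm, h23.symm]
  -- the monomial form of the simplest functional
  set e : Fin d →₀ ℕ := Finsupp.equivFunOnFinite.symm fun l => if l = i2 then 3 else
    if l ∈ T then 0 else R l with he
  have hGe : G T {i2} R = a e := by
    refine ext_monomial fun t => ?_
    rw [G_monomial, a_monomial]
    refine if_congr ?_ rfl rfl
    constructor
    · rintro ⟨h1, h2, h3⟩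
      ext l
      rw [he, Finsupp.equivFunOnFinite_symm_apply_apply]
      split_ifs with h4 h5
      · rw [h4, ← h1, Finset.sum_eq_single i2]
        · intro b hb hb'
          exact h2 b hb (by simpa using hb')
        · intro h; exact absurd (by simp [hT]) h
      · exact h2 l h5 (by simpa using h4)
      · exact h3 l h5
    · rintro rfl
      refine ⟨?_, ?_, ?_⟩
      · rw [Finset.sum_eq_single i2]
        · rw [he, Finsupp.equivFunOnFinite_symm_apply_apply, if_pos rfl]
        · intro b hb hb'
          rw [he, Finsupp.equivFunOnFinite_symm_apply_apply, if_neg hb', if_pos hb]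
        · intro h; exact absurd (by simp [hT]) h
      · intro l hl hl'
        rw [he, Finsupp.equivFunOnFinite_symm_apply_apply, if_neg (by simpa using hl'),
          if_pos hl]
      · intro l hl
        rw [he, Finsupp.equivFunOnFinite_symm_apply_apply, if_neg, if_neg hl]
        rintro rfl
        exact hl (by simp [hT])
  have hedeg : e.degree = n := by
    rw [Finsupp.degree_eq_sum]
    have h1 : ∑ l, e l = ∑ l ∈ T, e l + ∑ l ∈ Finset.univ \ T, e l := by
      rw [add_comm, Finset.sum_sdiff (Finset.subset_univ T)]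
    have h2 : ∑ l ∈ T, e l = 3 := by
      rw [Finset.sum_eq_single i2]
      · rw [he, Finsupp.equivFunOnFinite_symm_apply_apply, if_pos rfl]
      · intro b hb hb'
        rw [he, Finsupp.equivFunOnFinite_symm_apply_apply, if_neg hb', if_pos hb]
      · intro h; exact absurd (by simp [hT]) h
    have h3 : ∑ l ∈ Finset.univ \ T, e l = ∑ l ∈ Finset.univ \ T, R l := by
      refine Finset.sum_congr rfl fun l hl => ?_
      rw [Finset.mem_sdiff] at hl
      rw [he, Finsupp.equivFunOnFinite_symm_apply_apply, if_neg, if_neg hl.2]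
      rintro rfl
      exact hl.2 (by simp [hT])
    have h4 : ∑ l ∈ Finset.univ \ T, R l = N + (d - 4) := by
      rw [← Finset.add_sum_erase _ _ (Finset.mem_sdiff.2 ⟨Finset.mem_univ j, hjT⟩)]
      have h5 : R j = N := by simp [hR]
      rw [h5]
      congr 1
      rw [Finset.sum_congr rfl (g := fun _ => 1), Finset.sum_const, smul_eq_mul, mul_one,
        Finset.card_erase_of_mem (Finset.mem_sdiff.2 ⟨Finset.mem_univ j, hjT⟩),
        Finset.card_univ_sdiff, Fintype.card_fin]
      · have : T.card = 3 := Finset.card_eq_three.2 ⟨i0, i1, i2, h01, h02, h12, rfl⟩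
        omega
      · intro l hl
        rw [hR]
        exact if_neg (Finset.ne_of_mem_erase hl)
    omega
  have hePH : (a e : P d →ₗ[ZMod 2] ZMod 2) ∈ PH d n := by
    rw [← hedeg]
    refine a_mem_PH e fun l => ?_
    rw [he, Finsupp.equivFunOnFinite_symm_apply_apply]
    split_ifs
    · exact ⟨2, rfl⟩
    · exact ⟨0, rfl⟩
    · rw [hR]
      dsimp only
      split_ifs
      · exact ⟨m, hN⟩
      · exact ⟨1, rfl⟩
  have h3 := a_mem_rel hePH (i := i3) (j := i1) h13.symm ?_ ?_
  · have h4 := prod_equiv (n := n) h01 h02 h12 R (by rw [← hT, hGe]; exact hePH)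
    rw [← hT, hGe] at h4
    have h5 := (rel d n).add_mem h4 h3
    rw [sub_add_cancel] at h5
    have h6 : (fun l => if l ∈ T then 1 else R l) = fun l => if l = j then N else 1 := by
      funext l
      simp only [hR]
      split_ifs with h7 h8
      · exact absurd (h8 ▸ h7) hjT
      · rfl
      · rfl
      · rfl
    rwa [h6] at h5
  · rw [he, Finsupp.equivFunOnFinite_symm_apply_apply, if_neg h23.symm, if_neg h3T, hR]
    exact if_neg h3j
  · rw [he, Finsupp.equivFunOnFinite_symm_apply_apply, if_neg h12, if_pos (by simp [hT])]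

end

end Q181.Kameko
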